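import Pool.Agent.Lib.CMT.Defs

/-!
PROJECT CMT, part C (analysis), file Lat: Gaussian sums over `(1/N) O_F^ι` converge.
-/

namespace CMT

open Finset NumberField

noncomputable section

theorem summable_exp_neg_sq (c : ℝ) (hc : 0 < c) :
    Summable fun n : ℤ => Real.exp (-c * (n : ℝ) ^ 2) := by
  have h1 : Summable fun n : ℕ => Real.exp (-c * (n : ℝ)) := by
    have := (Real.summable_exp_nat_mul_iff (a := -c)).2 (by linarith)
    refine this.congr fun n => by rw [mul_comm]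
  have h2 : Summable fun n : ℕ => Real.exp (-c * (n : ℝ) ^ 2) := by
    refine h1.of_nonneg_of_le (fun _ => (Real.exp_pos _).le) fun n => ?_
    apply Real.exp_le_exp.2
    have h3 : (n : ℝ) ≤ (n : ℝ) ^ 2 := by
      rcases Nat.eq_zero_or_pos n with h | h
      · simp [h]
      · have : (1 : ℝ) ≤ n := by exact_mod_cast h
        nlinarith
    nlinarith
  refine Summable.of_nat_of_neg (f := fun n : ℤ => Real.exp (-c * (n : ℝ) ^ 2)) ?_ ?_
  · simpa using h2
  · simpa using h2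

theorem summable_exp_neg_sq_pi {κ : Type*} [Fintype κ] (c : ℝ) (hc : 0 < c) :
    Summable fun n : κ → ℤ => Real.exp (-c * ∑ j, (n j : ℝ) ^ 2) := by
  classical
  set S : ℝ := ∑' n : ℤ, Real.exp (-c * (n : ℝ) ^ 2)
  refine summable_of_sum_le (c := S ^ Fintype.card κ) (fun _ => (Real.exp_pos _).le) fun s => ?_
  have hsub : s ⊆ Fintype.piFinset (fun j => s.image (fun n => n j)) := by
    intro n hn
    rw [Fintype.mem_piFinset]
    exact fun j => mem_image_of_mem _ hn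
  calc ∑ n ∈ s, Real.exp (-c * ∑ j, (n j : ℝ) ^ 2)
      ≤ ∑ n ∈ Fintype.piFinset (fun j => s.image (fun n : κ → ℤ => n j)),
          Real.exp (-c * ∑ j, ((n j : ℤ) : ℝ) ^ 2) :=
        sum_le_sum_of_subset_of_nonneg hsub (fun _ _ _ => (Real.exp_pos _).le)
    _ = ∑ n ∈ Fintype.piFinset (fun j => s.image (fun n : κ → ℤ => n j)),
          ∏ j, Real.exp (-c * ((n j : ℤ) : ℝ) ^ 2) := by
        refine sum_congr rfl fun n _ => ?_
        rw [mul_sum, Real.exp_sum]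
    _ = ∏ j, ∑ m ∈ s.image (fun n : κ → ℤ => n j), Real.exp (-c * ((m : ℤ) : ℝ) ^ 2) := by
        rw [Finset.prod_univ_sum]
    _ ≤ ∏ _j : κ, S := by
        refine prod_le_prod (fun j _ => sum_nonneg fun _ _ => (Real.exp_pos _).le) fun j _ => ?_
        exact (summable_exp_neg_sq c hc).sum_le_tsum _ (fun _ _ => (Real.exp_pos _).le)
    _ = S ^ Fintype.card κ := by simp

/-- `(1 + y)^k exp(-c y) ≤ C exp(-(c/2) y)`. -/
theorem exists_pow_mul_exp_le (k : ℕ) (c : ℝ) (hc : 0 < c) :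
    ∃ C : ℝ, 0 < C ∧ ∀ y : ℝ, 0 ≤ y →
      (1 + y) ^ k * Real.exp (-c * y) ≤ C * Real.exp (-(c / 2) * y) := by
  refine ⟨(k.factorial : ℝ) * (2 / c) ^ k * Real.exp (c / 2), by positivity, fun y hy => ?_⟩
  have h1 := Real.pow_div_factorial_le_exp (x := c / 2 * (1 + y)) (by positivity) k
  rw [div_le_iff₀ (by positivity)] at h1
  have h2 : (1 + y) ^ k = (2 / c) ^ k * (c / 2 * (1 + y)) ^ k := by
    rw [← mul_pow]
    congr 1
    field_simp
  have h3 : Real.exp (c / 2 * (1 + y)) * Real.exp (-c * y)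
      = Real.exp (c / 2) * Real.exp (-(c / 2) * y) := by
    rw [← Real.exp_add, ← Real.exp_add]
    congr 1
    ring
  calc (1 + y) ^ k * Real.exp (-c * y)
      = (2 / c) ^ k * ((c / 2 * (1 + y)) ^ k * Real.exp (-c * y)) := by rw [h2]; ring
    _ ≤ (2 / c) ^ k * ((Real.exp (c / 2 * (1 + y)) * (k.factorial : ℝ)) * Real.exp (-c * y)) := by
        gcongr
    _ = (k.factorial : ℝ) * (2 / c) ^ k * (Real.exp (c / 2 * (1 + y)) * Real.exp (-c * y)) := by
        ring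
    _ = _ := by rw [h3]; ring

variable {F : Type} [Field F] [NumberField F]

/-- `|x|² = ∑_i ∑_t (t x_i)²`. -/
def nrm {ι : Type*} [Fintype ι] (x : ι → F) : ℝ := ∑ i, ∑ t : F →+* ℝ, (t (x i)) ^ 2

theorem nrm_nonneg {ι : Type*} [Fintype ι] (x : ι → F) : 0 ≤ nrm x :=
  sum_nonneg fun _ _ => sum_nonneg fun _ _ => sq_nonneg _

theorem sq_le_nrm {ι : Type*} [Fintype ι] (x : ι → F) (t : F →+* ℝ) (i : ι) :
    (t (x i)) ^ 2 ≤ nrm x :=
  (single_le_sum (f := fun t : F →+* ℝ => (t (x i)) ^ 2) (fun _ _ => sq_nonneg _)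
    (mem_univ t)).trans
  (single_le_sum (f := fun i => ∑ t : F →+* ℝ, (t (x i)) ^ 2)
    (fun _ _ => sum_nonneg fun _ _ => sq_nonneg _) (mem_univ i))

theorem nrm_smul {ι : Type*} [Fintype ι] (N : ℕ) (x : ι → F) :
    nrm (fun i => (N : F) * x i) = (N : ℝ) ^ 2 * nrm x := by
  unfold nrm
  rw [mul_sum]
  refine sum_congr rfl fun i _ => ?_
  rw [mul_sum]
  refine sum_congr rfl fun t _ => ?_
  rw [map_mul, map_natCast]
  ring

theorem norm_canonicalEmbedding_sq_le [IsTotallyReal F] (y : F) :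
    ‖canonicalEmbedding F y‖ ^ 2 ≤ ∑ t : F →+* ℝ, (t y) ^ 2 := by
  have h0 : 0 ≤ ∑ t : F →+* ℝ, (t y) ^ 2 := sum_nonneg fun _ _ => sq_nonneg _
  have h : ‖canonicalEmbedding F y‖ ≤ Real.sqrt (∑ t : F →+* ℝ, (t y) ^ 2) := by
    rw [canonicalEmbedding.norm_le_iff]
    intro φ
    have hφ : ComplexEmbedding.IsReal φ := IsTotallyReal.complexEmbedding_isReal φ
    rw [← ComplexEmbedding.IsReal.coe_embedding_apply hφ, Complex.norm_real, Real.norm_eq_abs]
    apply Real.abs_le_sqrt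
    exact single_le_sum (f := fun t : F →+* ℝ => (t y) ^ 2) (fun _ _ => sq_nonneg _)
      (mem_univ _)
  calc ‖canonicalEmbedding F y‖ ^ 2 ≤ Real.sqrt (∑ t : F →+* ℝ, (t y) ^ 2) ^ 2 := by
        gcongr
    _ = _ := Real.sq_sqrt h0

theorem repr_sq_le (F : Type) [Field F] [NumberField F] [IsTotallyReal F] :
    ∃ C : ℝ, 0 < C ∧ ∀ (y : 𝓞 F) (j),
      (((RingOfIntegers.basis F).repr y j : ℤ) : ℝ) ^ 2 ≤ C * ∑ t : F →+* ℝ, (t (y : F)) ^ 2 := by
  classical
  let L : Module.Free.ChooseBasisIndex ℤ (𝓞 F) → (((F →+* ℂ) → ℂ) →L[ℂ] ℂ) := fun j =>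
    LinearMap.toContinuousLinearMap ((canonicalEmbedding.latticeBasis F).coord j)
  refine ⟨∑ j, ‖L j‖ ^ 2 + 1, by positivity, fun y j => ?_⟩
  have h1 : L j (canonicalEmbedding F (y : F)) = (((RingOfIntegers.basis F).repr y j : ℤ) : ℂ) := by
    have h2 := canonicalEmbedding.integralBasis_repr_apply F (y : F) j
    have h3 := integralBasis_repr_apply F y j
    change (canonicalEmbedding.latticeBasis F).repr (canonicalEmbedding F (y : F)) j = _
    rw [h2]
    change (((integralBasis F).repr (algebraMap (𝓞 F) F y) j : ℚ) : ℂ) = _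
    rw [h3]
    simp
  have h4 : ‖L j (canonicalEmbedding F (y : F))‖ ≤ ‖L j‖ * ‖canonicalEmbedding F (y : F)‖ :=
    (L j).le_opNorm _
  rw [h1] at h4
  have h5 : (((RingOfIntegers.basis F).repr y j : ℤ) : ℝ) ^ 2
      ≤ (‖L j‖ * ‖canonicalEmbedding F (y : F)‖) ^ 2 := by
    rw [← sq_abs]
    have h6 : ‖(((RingOfIntegers.basis F).repr y j : ℤ) : ℂ)‖
        = |(((RingOfIntegers.basis F).repr y j : ℤ) : ℝ)| := by
      rw [Complex.norm_intCast]
    rw [← h6]
    gcongr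
  have h7 : ‖L j‖ ^ 2 ≤ ∑ j, ‖L j‖ ^ 2 + 1 := by
    have := single_le_sum (f := fun j => ‖L j‖ ^ 2) (fun _ _ => sq_nonneg _) (mem_univ j)
    linarith
  calc (((RingOfIntegers.basis F).repr y j : ℤ) : ℝ) ^ 2
      ≤ (‖L j‖ * ‖canonicalEmbedding F (y : F)‖) ^ 2 := h5
    _ = ‖L j‖ ^ 2 * ‖canonicalEmbedding F (y : F)‖ ^ 2 := by ring
    _ ≤ (∑ j, ‖L j‖ ^ 2 + 1) * ∑ t : F →+* ℝ, (t (y : F)) ^ 2 := by
        gcongr
        exact norm_canonicalEmbedding_sq_le _

/-- The lattice `(1/N) O_F^ι` as a set. -/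
def lat (F : Type) [Field F] [NumberField F] (ι : Type*) (N : ℕ) : Set (ι → F) :=
  {x | ∀ i, IsIntegral ℤ ((N : F) * x i)}

/-- Gaussian sums over the lattice, without polynomial factor. -/
theorem summable_lat_exp [IsTotallyReal F] {ι : Type*} [Fintype ι] (N : ℕ) (hN : 0 < N)
    (c : ℝ) (hc : 0 < c) : Summable fun x : lat F ι N => Real.exp (-c * nrm (x : ι → F)) := by
  classical
  obtain ⟨C, hC, hrepr⟩ := repr_sq_le F
  have hNr : (0 : ℝ) < N := by exact_mod_cast hN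
  let J := Module.Free.ChooseBasisIndex ℤ (𝓞 F)
  let n : lat F ι N → (ι × J → ℤ) := fun x p =>
    (RingOfIntegers.basis F).repr (⟨(N : F) * x.1 p.1, x.2 p.1⟩ : 𝓞 F) p.2
  have hinj : Function.Injective n := by
    intro x y hxy
    apply Subtype.ext
    funext i
    have h1 : (⟨(N : F) * x.1 i, x.2 i⟩ : 𝓞 F) = ⟨(N : F) * y.1 i, y.2 i⟩ := by
      apply (RingOfIntegers.basis F).repr.injective
      ext j
      exact congrFun hxy (i, j)
    have h2 : (N : F) * x.1 i = (N : F) * y.1 i := congrArg (fun a : 𝓞 F => (a : F)) h1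
    exact mul_left_cancel₀ (by exact_mod_cast hN.ne') h2
  have hcard : (0 : ℝ) < (Fintype.card J : ℝ) + 1 := by positivity
  set c' : ℝ := c / (C * ((Fintype.card J : ℝ) + 1) * (N : ℝ) ^ 2) with hc'
  have hc'0 : 0 < c' := by positivity
  have hs := (summable_exp_neg_sq_pi (κ := ι × J) c' hc'0).comp_injective hinj
  refine hs.of_nonneg_of_le (fun _ => (Real.exp_pos _).le) fun x => ?_
  apply Real.exp_le_exp.2
  have hsum : ∑ p : ι × J, ((n x p : ℤ) : ℝ) ^ 2
      ≤ C * ((Fintype.card J : ℝ) + 1) * (N : ℝ) ^ 2 * nrm (x : ι → F) := by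
    have h1 : ∀ i : ι, ∑ j : J, ((n x (i, j) : ℤ) : ℝ) ^ 2
        ≤ ((Fintype.card J : ℝ) + 1) * (C * ∑ t : F →+* ℝ, (t ((N : F) * x.1 i)) ^ 2) := by
      intro i
      have h2 : 0 ≤ C * ∑ t : F →+* ℝ, (t ((N : F) * x.1 i)) ^ 2 :=
        mul_nonneg hC.le (sum_nonneg fun _ _ => sq_nonneg _)
      calc ∑ j : J, ((n x (i, j) : ℤ) : ℝ) ^ 2
          ≤ ∑ _j : J, C * ∑ t : F →+* ℝ, (t ((N : F) * x.1 i)) ^ 2 :=
            sum_le_sum fun j _ => hrepr ⟨(N : F) * x.1 i, x.2 i⟩ j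
        _ = (Fintype.card J : ℝ) * (C * ∑ t : F →+* ℝ, (t ((N : F) * x.1 i)) ^ 2) := by
            rw [sum_const, nsmul_eq_mul]
            rfl
        _ ≤ _ := by nlinarith
    rw [Fintype.sum_prod_type]
    calc ∑ i : ι, ∑ j : J, ((n x (i, j) : ℤ) : ℝ) ^ 2
        ≤ ∑ i : ι, ((Fintype.card J : ℝ) + 1) * (C * ∑ t : F →+* ℝ, (t ((N : F) * x.1 i)) ^ 2) :=
          sum_le_sum fun i _ => h1 i
      _ = ((Fintype.card J : ℝ) + 1) * C * nrm (fun i => (N : F) * x.1 i) := by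
          rw [← mul_sum, ← mul_sum]
          unfold nrm
          ring
      _ = _ := by rw [nrm_smul]; ring
  have h3 : c' * ∑ p : ι × J, ((n x p : ℤ) : ℝ) ^ 2 ≤ c * nrm (x : ι → F) := by
    calc c' * ∑ p : ι × J, ((n x p : ℤ) : ℝ) ^ 2
        ≤ c' * (C * ((Fintype.card J : ℝ) + 1) * (N : ℝ) ^ 2 * nrm (x : ι → F)) := by
          gcongr
      _ = c * nrm (x : ι → F) := by
          rw [hc']
          field_simp
  linarith

/-- Gaussian sums over the lattice, with polynomial factor. -/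
theorem summable_lat [IsTotallyReal F] {ι : Type*} [Fintype ι] (N : ℕ) (hN : 0 < N) (k : ℕ)
    (c : ℝ) (hc : 0 < c) :
    Summable fun x : lat F ι N => (1 + nrm (x : ι → F)) ^ k * Real.exp (-c * nrm (x : ι → F)) := by
  obtain ⟨C, _, hCle⟩ := exists_pow_mul_exp_le k c hc
  refine ((summable_lat_exp N hN (c / 2) (half_pos hc)).mul_left C).of_nonneg_of_le
    (fun x => ?_) (fun x => hCle _ (nrm_nonneg _))
  have := nrm_nonneg (x : ι → F)
  positivity

/-- If `|φ| ≤ M` and `φ` is supported in the lattice then `∑ |φ(x)| (1+|x|²)^k exp(-c|x|²) < ∞`. -/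
theorem summable_of_supp [IsTotallyReal F] {ι : Type*} [Fintype ι] {φ : (ι → F) → ℂ} {N : ℕ}
    (hN : 0 < N) {M : ℝ} (hM : ∀ x, ‖φ x‖ ≤ M) (hs : ∀ x, φ x ≠ 0 → x ∈ lat F ι N) (k : ℕ)
    (c : ℝ) (hc : 0 < c) :
    Summable fun x => ‖φ x‖ * ((1 + nrm x) ^ k * Real.exp (-c * nrm x)) := by
  have h1 := ((summable_lat (F := F) (ι := ι) N hN k c hc).mul_left M)
  refine (Function.Injective.summable_iff
    (Subtype.val_injective : Function.Injective (Subtype.val : lat F ι N → (ι → F))) ?_).1 ?_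
  rotate_left
  · refine h1.of_nonneg_of_le (fun x => ?_) (fun x => ?_)
    · have := nrm_nonneg (x : ι → F)
      simp only [Function.comp_apply]
      positivity
    · simp only [Function.comp_apply]
      have := nrm_nonneg (x : ι → F)
      gcongr
      exact hM _
  · intro x hx
    have : φ x = 0 := by
      by_contra h
      exact hx ⟨⟨x, hs x h⟩, rfl⟩
    simp [this]

end

end CMT
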