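import Pool.Agent.Lib.CMT.Defs

/-!
PROJECT CMT, part C (analysis), file Pos: the quadratic form `Re ((x,x) + 2 u_x(z)²)` is positive
definite on the ball, with an explicit lower bound.

`m = b - z1² - z2²`, `H = b - |z1|² - |z2|²`, `w = (x, ẑ)`:
`|m|² ((x,x) + 2 Re (w²/m)) = H² (x,x) + 2 H |w|² + 4 b det(x, Re ẑ, Im ẑ)²`.
-/

namespace CMT

noncomputable section

theorem pos_identity (b x0 x1 x2 a1 c1 a2 c2 : ℝ) :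
    ((b - (a1 ^ 2 - c1 ^ 2) - (a2 ^ 2 - c2 ^ 2)) ^ 2 + (-(2 * a1 * c1) - 2 * a2 * c2) ^ 2)
        * (x0 ^ 2 + x1 ^ 2 - b * x2 ^ 2)
      + 2 * (((x0 * a1 + x1 * a2 - b * x2) ^ 2 - (x0 * c1 + x1 * c2) ^ 2)
          * (b - (a1 ^ 2 - c1 ^ 2) - (a2 ^ 2 - c2 ^ 2))
        + 2 * (x0 * a1 + x1 * a2 - b * x2) * (x0 * c1 + x1 * c2)
          * (-(2 * a1 * c1) - 2 * a2 * c2))
    = (b - (a1 ^ 2 + c1 ^ 2 + (a2 ^ 2 + c2 ^ 2))) ^ 2 * (x0 ^ 2 + x1 ^ 2 - b * x2 ^ 2)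
      + 2 * (b - (a1 ^ 2 + c1 ^ 2 + (a2 ^ 2 + c2 ^ 2)))
          * ((x0 * a1 + x1 * a2 - b * x2) ^ 2 + (x0 * c1 + x1 * c2) ^ 2)
      + 4 * b * (x1 * c1 - x0 * c2 + x2 * (a1 * c2 - a2 * c1)) ^ 2 := by
  ring

/-- The standard majorant: `H (x,x) + 2 |w|² ≥ b (1-ρ)² (x1² + x2² + b x3²)`. -/
theorem pos_majorant {b ρ x0 x1 x2 a1 c1 a2 c2 : ℝ} (hb : 0 < b) (hρ0 : 0 ≤ ρ) (hρ1 : ρ < 1)
    (hz : a1 ^ 2 + c1 ^ 2 + (a2 ^ 2 + c2 ^ 2) ≤ ρ ^ 2 * b) :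
    b * (1 - ρ) ^ 2 * (x0 ^ 2 + x1 ^ 2 + b * x2 ^ 2)
      ≤ (b - (a1 ^ 2 + c1 ^ 2 + (a2 ^ 2 + c2 ^ 2))) * (x0 ^ 2 + x1 ^ 2 - b * x2 ^ 2)
        + 2 * ((x0 * a1 + x1 * a2 - b * x2) ^ 2 + (x0 * c1 + x1 * c2) ^ 2) := by
  set Z := a1 ^ 2 + c1 ^ 2 + (a2 ^ 2 + c2 ^ 2) with hZ
  have hZ0 : 0 ≤ Z := by positivity
  set e := Real.sqrt (Z / b) with he
  have he0 : 0 ≤ e := Real.sqrt_nonneg _
  have he2 : e ^ 2 = Z / b := Real.sq_sqrt (by positivity)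
  have heZ : Z = e ^ 2 * b := by rw [he2]; field_simp
  have heρ : e ≤ ρ := by
    rw [he]
    apply Real.sqrt_le_iff.2
    exact ⟨hρ0, by rw [div_le_iff₀ hb]; exact hz⟩
  have hmono : (1 - ρ) ^ 2 ≤ (1 - e) ^ 2 := by nlinarith
  set P := x0 ^ 2 + x1 ^ 2 with hP
  have hP0 : 0 ≤ P := by positivity
  set R := x0 * a1 + x1 * a2 with hR
  set I := x0 * c1 + x1 * c2 with hI
  -- Cauchy-Schwarz: `R² + I² ≤ P Z`
  have hCS : R ^ 2 + I ^ 2 ≤ P * Z := by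
    rw [hR, hI, hP, hZ]
    nlinarith [sq_nonneg (x0 * a2 - x1 * a1), sq_nonneg (x0 * c2 - x1 * c1)]
  have hN0 : 0 ≤ P + b * x2 ^ 2 := by positivity
  have hstep : b * (1 - ρ) ^ 2 * (P + b * x2 ^ 2) ≤ b * (1 - e) ^ 2 * (P + b * x2 ^ 2) := by
    gcongr
  refine hstep.trans ?_
  rcases eq_or_lt_of_le he0 with h0 | hpos
  · -- `e = 0`
    have hZz : Z = 0 := by rw [heZ, ← h0]; ring
    rw [hZz, mul_zero] at hCS
    have hR0 : R = 0 := by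
      have : R ^ 2 ≤ 0 := by linarith [sq_nonneg I]
      exact pow_eq_zero_iff (two_ne_zero) |>.1 (le_antisymm this (sq_nonneg R))
    have hI0 : I = 0 := by
      have : I ^ 2 ≤ 0 := by linarith [sq_nonneg R]
      exact pow_eq_zero_iff (two_ne_zero) |>.1 (le_antisymm this (sq_nonneg I))
    rw [← h0, hZz, hR0, hI0]
    apply le_of_eq
    ring
  · -- `e > 0`
    have h1 : 0 ≤ (R - e * (b * x2)) ^ 2 := sq_nonneg _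
    have h2 : R ^ 2 + I ^ 2 ≤ P * (e ^ 2 * b) := by rw [← heZ]; exact hCS
    have he1 : 0 ≤ 1 - e := by linarith
    have key : 0 ≤ e * ((b - Z) * (P - b * x2 ^ 2) + 2 * ((R - b * x2) ^ 2 + I ^ 2)
        - b * (1 - e) ^ 2 * (P + b * x2 ^ 2)) := by
      have h3 : e * ((b - Z) * (P - b * x2 ^ 2) + 2 * ((R - b * x2) ^ 2 + I ^ 2)
          - b * (1 - e) ^ 2 * (P + b * x2 ^ 2))
          = 2 * (1 - e) * (P * (e ^ 2 * b) - (R ^ 2 + I ^ 2)) + 2 * (R - e * (b * x2)) ^ 2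
            + 2 * I ^ 2 := by
        rw [heZ]
        ring
      rw [h3]
      have := mul_nonneg (mul_nonneg (zero_le_two (α := ℝ)) he1) (sub_nonneg.2 h2)
      positivity
    have := nonneg_of_mul_nonneg_right key hpos
    linarith

/-- The ball. -/
def ball (b : ℝ) : Set (ℂ × ℂ) := {z | ‖z.1‖ ^ 2 + ‖z.2‖ ^ 2 < b}

/-- The smaller ball `|z1|² + |z2|² < ρ² b`. -/
def sball (b ρ : ℝ) : Set (ℂ × ℂ) := {z | ‖z.1‖ ^ 2 + ‖z.2‖ ^ 2 < ρ ^ 2 * b}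

theorem normsq_eq (z : ℂ) : ‖z‖ ^ 2 = z.re ^ 2 + z.im ^ 2 := by
  rw [← Complex.normSq_eq_norm_sq, Complex.normSq_apply]
  ring

theorem mm_re (b : ℝ) (z : ℂ × ℂ) :
    (mm b z).re = b - (z.1.re ^ 2 - z.1.im ^ 2) - (z.2.re ^ 2 - z.2.im ^ 2) := by
  simp [mm, pow_two]

theorem mm_im (b : ℝ) (z : ℂ × ℂ) :
    (mm b z).im = -(2 * z.1.re * z.1.im) - 2 * z.2.re * z.2.im := by
  simp [mm, pow_two]
  ring

theorem mm_re_pos {b : ℝ} {z : ℂ × ℂ} (hz : z ∈ ball b) : 0 < (mm b z).re := by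
  rw [mm_re]
  have h : ‖z.1‖ ^ 2 + ‖z.2‖ ^ 2 < b := hz
  rw [normsq_eq, normsq_eq] at h
  nlinarith [sq_nonneg z.1.im, sq_nonneg z.2.im]

theorem mm_ne {b : ℝ} {z : ℂ × ℂ} (hz : z ∈ ball b) : mm b z ≠ 0 := by
  intro h
  have := mm_re_pos hz
  rw [h] at this
  simp at this

theorem mm_slit {b : ℝ} {z : ℂ × ℂ} (hz : z ∈ ball b) : mm b z ∈ Complex.slitPlane :=
  Or.inl (mm_re_pos hz)

theorem norm_mm_le {b : ℝ} (hb : 0 < b) {z : ℂ × ℂ} (hz : z ∈ ball b) : ‖mm b z‖ ≤ 2 * b := by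
  have h : ‖z.1‖ ^ 2 + ‖z.2‖ ^ 2 < b := hz
  have h1 : ‖mm b z‖ ≤ b + ‖z.1‖ ^ 2 + ‖z.2‖ ^ 2 := by
    unfold mm
    calc ‖(b : ℂ) - z.1 ^ 2 - z.2 ^ 2‖ ≤ ‖(b : ℂ) - z.1 ^ 2‖ + ‖z.2 ^ 2‖ := norm_sub_le _ _
      _ ≤ ‖(b : ℂ)‖ + ‖z.1 ^ 2‖ + ‖z.2 ^ 2‖ := by gcongr; exact norm_sub_le _ _
      _ = _ := by rw [Complex.norm_real, Real.norm_of_nonneg hb.le, norm_pow, norm_pow]
  linarith

theorem ss_sq {b : ℝ} {z : ℂ × ℂ} (hz : z ∈ ball b) : ss b z ^ 2 = mm b z := by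
  have h := mm_ne hz
  unfold ss
  rw [← Complex.cpow_nat_mul]
  norm_num

theorem ss_ne {b : ℝ} {z : ℂ × ℂ} (hz : z ∈ ball b) : ss b z ≠ 0 := by
  intro h
  have h1 := ss_sq hz
  rw [h] at h1
  exact mm_ne hz (by rw [← h1]; ring)

theorem uu_sq {b : ℝ} {z : ℂ × ℂ} (hz : z ∈ ball b) (x : Fin 3 → ℝ) :
    uu b x z ^ 2 = ll b x z ^ 2 / mm b z := by
  unfold uu
  rw [div_pow, ss_sq hz]

theorem ll_re (b : ℝ) (x : Fin 3 → ℝ) (z : ℂ × ℂ) :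
    (ll b x z).re = x 0 * z.1.re + x 1 * z.2.re - b * x 2 := by
  simp [ll]

theorem ll_im (b : ℝ) (x : Fin 3 → ℝ) (z : ℂ × ℂ) :
    (ll b x z).im = x 0 * z.1.im + x 1 * z.2.im := by
  simp [ll]

theorem sball_subset {b ρ : ℝ} (hb : 0 < b) (hρ0 : 0 ≤ ρ) (hρ1 : ρ ≤ 1) :
    sball b ρ ⊆ ball b := by
  intro z hz
  have h : ‖z.1‖ ^ 2 + ‖z.2‖ ^ 2 < ρ ^ 2 * b := hz
  have h1 : ρ ^ 2 * b ≤ 1 * b := by
    gcongr
    nlinarith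
  change ‖z.1‖ ^ 2 + ‖z.2‖ ^ 2 < b
  linarith

/-- THE LOWER BOUND: on the ball of radius `ρ`,
`Re ((x,x) + 2 u_x(z)²) ≥ ((1-ρ)³/4) (x1² + x2² + b x3²)`. -/
theorem re_q_ge {b ρ : ℝ} (hb : 0 < b) (hρ0 : 0 ≤ ρ) (hρ1 : ρ < 1) {z : ℂ × ℂ}
    (hz : z ∈ sball b ρ) (x : Fin 3 → ℝ) :
    (1 - ρ) ^ 3 / 4 * (x 0 ^ 2 + x 1 ^ 2 + b * x 2 ^ 2)
      ≤ ((qf b x x : ℂ) + 2 * uu b x z ^ 2).re := by
  have hzb : z ∈ ball b := sball_subset hb hρ0 hρ1.le hz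
  have hz' : z.1.re ^ 2 + z.1.im ^ 2 + (z.2.re ^ 2 + z.2.im ^ 2) ≤ ρ ^ 2 * b := by
    have h : ‖z.1‖ ^ 2 + ‖z.2‖ ^ 2 < ρ ^ 2 * b := hz
    rw [normsq_eq, normsq_eq] at h
    exact h.le
  have hmaj := pos_majorant (x0 := x 0) (x1 := x 1) (x2 := x 2) hb hρ0 hρ1 hz'
  have hid := pos_identity b (x 0) (x 1) (x 2) z.1.re z.1.im z.2.re z.2.im
  set Z := z.1.re ^ 2 + z.1.im ^ 2 + (z.2.re ^ 2 + z.2.im ^ 2) with hZ
  set W := (x 0 * z.1.re + x 1 * z.2.re - b * x 2) ^ 2 + (x 0 * z.1.im + x 1 * z.2.im) ^ 2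
    with hW
  set n := Complex.normSq (mm b z) with hn
  have hnpos : 0 < n := Complex.normSq_pos.2 (mm_ne hzb)
  have hn4 : n ≤ 4 * b ^ 2 := by
    rw [hn, Complex.normSq_eq_norm_sq]
    have := norm_mm_le hb hzb
    have h0 := norm_nonneg (mm b z)
    calc ‖mm b z‖ ^ 2 ≤ (2 * b) ^ 2 := by gcongr
      _ = 4 * b ^ 2 := by ring
  have hnval : n = (b - (z.1.re ^ 2 - z.1.im ^ 2) - (z.2.re ^ 2 - z.2.im ^ 2)) ^ 2
      + (-(2 * z.1.re * z.1.im) - 2 * z.2.re * z.2.im) ^ 2 := by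
    rw [hn, Complex.normSq_apply, mm_re, mm_im]
    ring
  have hre : n * ((qf b x x : ℂ) + 2 * uu b x z ^ 2).re
      = n * (x 0 ^ 2 + x 1 ^ 2 - b * x 2 ^ 2)
        + 2 * (((x 0 * z.1.re + x 1 * z.2.re - b * x 2) ^ 2
            - (x 0 * z.1.im + x 1 * z.2.im) ^ 2)
            * (b - (z.1.re ^ 2 - z.1.im ^ 2) - (z.2.re ^ 2 - z.2.im ^ 2))
          + 2 * (x 0 * z.1.re + x 1 * z.2.re - b * x 2) * (x 0 * z.1.im + x 1 * z.2.im)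
            * (-(2 * z.1.re * z.1.im) - 2 * z.2.re * z.2.im)) := by
    rw [uu_sq hzb]
    have h1 : ((qf b x x : ℂ) + 2 * (ll b x z ^ 2 / mm b z)).re
        = qf b x x + 2 * (ll b x z ^ 2 / mm b z).re := by
      rw [Complex.add_re, Complex.ofReal_re]
      congr 1
      simp
    have h2 : n * (ll b x z ^ 2 / mm b z).re
        = (ll b x z ^ 2).re * (mm b z).re + (ll b x z ^ 2).im * (mm b z).im := by
      rw [Complex.div_re, ← hn]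
      field_simp
    have h3 : (ll b x z ^ 2).re = (ll b x z).re ^ 2 - (ll b x z).im ^ 2 := by
      rw [pow_two, Complex.mul_re]
      ring
    have h4 : (ll b x z ^ 2).im = 2 * (ll b x z).re * (ll b x z).im := by
      rw [pow_two, Complex.mul_im]
      ring
    rw [h1, mul_add, mul_left_comm, h2, h3, h4, mm_re, mm_im, ll_re, ll_im]
    unfold qf
    ring
  rw [← hnval, ← hre] at hid
  set N' := x 0 ^ 2 + x 1 ^ 2 + b * x 2 ^ 2 with hN'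
  have hN'0 : 0 ≤ N' := by positivity
  have hH : (1 - ρ) * b ≤ b - Z := by
    have : ρ ^ 2 * b ≤ ρ * b := by
      have : ρ ^ 2 ≤ ρ := pow_le_of_le_one hρ0 hρ1.le two_ne_zero
      gcongr
    linarith
  have h1ρ : 0 < 1 - ρ := by linarith
  have hH0 : 0 ≤ b - Z := le_trans (by positivity) hH
  have h5 : (1 - ρ) * b * (b * (1 - ρ) ^ 2 * N')
      ≤ n * ((qf b x x : ℂ) + 2 * uu b x z ^ 2).re := by
    rw [hid]
    have h6 : (1 - ρ) * b * (b * (1 - ρ) ^ 2 * N')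
        ≤ (b - Z) * ((b - Z) * (x 0 ^ 2 + x 1 ^ 2 - b * x 2 ^ 2) + 2 * W) := by
      apply mul_le_mul hH hmaj (by positivity) hH0
    have h7 : 0 ≤ 4 * b * (x 1 * z.1.im - x 0 * z.2.im
        + x 2 * (z.1.re * z.2.im - z.2.re * z.1.im)) ^ 2 := by positivity
    have h7' : (b - Z) * ((b - Z) * (x 0 ^ 2 + x 1 ^ 2 - b * x 2 ^ 2) + 2 * W)
        = (b - Z) ^ 2 * (x 0 ^ 2 + x 1 ^ 2 - b * x 2 ^ 2) + 2 * (b - Z) * W := by ring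
    rw [h7'] at h6
    exact h6.trans (le_add_of_nonneg_right h7)
  have h8 : n * ((1 - ρ) ^ 3 / 4 * N') ≤ (1 - ρ) * b * (b * (1 - ρ) ^ 2 * N') := by
    have h9 : n * ((1 - ρ) ^ 3 / 4 * N') ≤ 4 * b ^ 2 * ((1 - ρ) ^ 3 / 4 * N') := by
      gcongr
    calc n * ((1 - ρ) ^ 3 / 4 * N') ≤ 4 * b ^ 2 * ((1 - ρ) ^ 3 / 4 * N') := h9
      _ = _ := by ring
  exact le_of_mul_le_mul_left (h8.trans h5) hnpos

end

end CMT
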