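import Pool.Agent.Lib.CMT.C.Bd
import Pool.Agent.Lib.CMT.C.Pos

/-!
PROJECT CMT, part C (analysis), file Term: lower bounds of the exponents, upper bounds of the
terms of the theta form and of the kernel, uniform for `z` in a smaller ball and for the matrices
`E t` bounded below by `lam`.
-/

namespace CMT

open Finset NumberField

noncomputable section

/-- `x0² + x1² + x2²`. -/
def sq3 (x : Fin 3 → ℝ) : ℝ := x 0 ^ 2 + x 1 ^ 2 + x 2 ^ 2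

theorem sq3_nonneg (x : Fin 3 → ℝ) : 0 ≤ sq3 x := by unfold sq3; positivity

theorem exists_pos_le {T : Type*} [Finite T] (f : T → ℝ) (hf : ∀ t, 0 < f t) :
    ∃ c : ℝ, 0 < c ∧ ∀ t, c ≤ f t := by
  rcases isEmpty_or_nonempty T with h | h
  · exact ⟨1, one_pos, fun t => h.elim t⟩
  · obtain ⟨t1, ht1⟩ := Finite.exists_min f
    exact ⟨f t1, hf t1, ht1⟩

/-- Lower bound of a `2 × 2` form. -/
def LB (lam : ℝ) (E : Matrix (Fin 2) (Fin 2) ℝ) : Prop :=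
  ∀ s u : ℝ, lam * (s ^ 2 + u ^ 2) ≤ E 0 0 * s ^ 2 + (E 0 1 + E 1 0) * (s * u) + E 1 1 * u ^ 2

theorem LB.mono {lam lam' : ℝ} {E : Matrix (Fin 2) (Fin 2) ℝ} (h : LB lam E) (hl : lam' ≤ lam) :
    LB lam' E := fun s u => by
  have h1 := h s u
  have h2 : lam' * (s ^ 2 + u ^ 2) ≤ lam * (s ^ 2 + u ^ 2) := by gcongr
  linarith

theorem LB.near {lam : ℝ} {E E' : Matrix (Fin 2) (Fin 2) ℝ} (h : LB lam E)
    (hE : ∀ i j, |E' i j - E i j| ≤ lam / 4) : LB (lam / 2) E' := by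
  intro s u
  have h1 := h s u
  have h00 := abs_le.1 (hE 0 0)
  have h11 := abs_le.1 (hE 1 1)
  have h01 := abs_le.1 (hE 0 1)
  have h10 := abs_le.1 (hE 1 0)
  have a1 : (-(lam / 4)) * s ^ 2 ≤ (E' 0 0 - E 0 0) * s ^ 2 :=
    mul_le_mul_of_nonneg_right h00.1 (sq_nonneg s)
  have a2 : (-(lam / 4)) * u ^ 2 ≤ (E' 1 1 - E 1 1) * u ^ 2 :=
    mul_le_mul_of_nonneg_right h11.1 (sq_nonneg u)
  have a3 : |((E' 0 1 - E 0 1) + (E' 1 0 - E 1 0)) * (s * u)| ≤ (lam / 2) * ((s ^ 2 + u ^ 2) / 2) := by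
    rw [abs_mul]
    have b1 : |(E' 0 1 - E 0 1) + (E' 1 0 - E 1 0)| ≤ lam / 2 := by
      apply abs_le.2
      constructor <;> linarith
    have b2 : |s * u| ≤ (s ^ 2 + u ^ 2) / 2 := by
      apply abs_le.2
      constructor <;> nlinarith [sq_nonneg (s + u), sq_nonneg (s - u)]
    exact mul_le_mul b1 b2 (abs_nonneg _) (le_trans (abs_nonneg _) b1)
  have a4 := (abs_le.1 a3).1
  have h2 : E' 0 0 * s ^ 2 + (E' 0 1 + E' 1 0) * (s * u) + E' 1 1 * u ^ 2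
      = (E 0 0 * s ^ 2 + (E 0 1 + E 1 0) * (s * u) + E 1 1 * u ^ 2)
        + (E' 0 0 - E 0 0) * s ^ 2 + (E' 1 1 - E 1 1) * u ^ 2
        + ((E' 0 1 - E 0 1) + (E' 1 0 - E 1 0)) * (s * u) := by ring
  rw [h2]
  linarith

theorem LB_diagonal (p q : ℝ) : LB (min p q) (Matrix.diagonal ![p, q]) := by
  intro s u
  have h1 : min p q * s ^ 2 ≤ p * s ^ 2 := mul_le_mul_of_nonneg_right (min_le_left _ _) (sq_nonneg s)
  have h2 : min p q * u ^ 2 ≤ q * u ^ 2 := mul_le_mul_of_nonneg_right (min_le_right _ _) (sq_nonneg u)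
  have h3 : (Matrix.diagonal ![p, q] : Matrix (Fin 2) (Fin 2) ℝ) 0 0 = p := by simp
  have h4 : (Matrix.diagonal ![p, q] : Matrix (Fin 2) (Fin 2) ℝ) 1 1 = q := by simp
  have h5 : (Matrix.diagonal ![p, q] : Matrix (Fin 2) (Fin 2) ℝ) 0 1 = 0 := by simp
  have h6 : (Matrix.diagonal ![p, q] : Matrix (Fin 2) (Fin 2) ℝ) 1 0 = 0 := by simp
  rw [h3, h4, h5, h6]
  linarith

theorem PosDef.exists_LB {E : Matrix (Fin 2) (Fin 2) ℝ} (hE : E.PosDef) :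
    ∃ lam : ℝ, 0 < lam ∧ LB lam E := by
  have hs : E 1 0 = E 0 1 := by
    have h := hE.1.apply 0 1
    simpa using h
  have h0 : 0 < E 0 0 := by
    have h := hE.diag_pos (i := 0)
    exact h
  have h1 : 0 < E 1 1 := by
    have h := hE.diag_pos (i := 1)
    exact h
  have hd : 0 < E 0 0 * E 1 1 - E 0 1 ^ 2 := by
    have h := hE.det_pos
    rw [Matrix.det_fin_two, hs] at h
    linarith
  have ht : 0 < E 0 0 + E 1 1 := by linarith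
  refine ⟨(E 0 0 * E 1 1 - E 0 1 ^ 2) / (E 0 0 + E 1 1), by positivity, fun s u => ?_⟩
  rw [hs, div_mul_eq_mul_div, div_le_iff₀ ht]
  nlinarith [sq_nonneg (E 0 0 * s + E 0 1 * u), sq_nonneg (E 0 1 * s + E 1 1 * u),
    sq_nonneg (E 0 0 * s), sq_nonneg (E 1 1 * u)]

variable {F : Type} [Field F] [NumberField F]

theorem nrm_eq (x : Fin 3 → F) : nrm x = ∑ t : F →+* ℝ, sq3 (rx t x) := by
  unfold nrm
  rw [sum_comm]
  refine sum_congr rfl fun t _ => ?_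
  rw [Fin.sum_univ_three]
  rfl

theorem kap_pos (D : Dat F) (t : F →+* ℝ) : 0 < kap D t := by
  unfold kap
  have := Real.sqrt_pos.2 (D.del_pos t)
  have := Real.pi_pos
  positivity

theorem bet_ne (D : Dat F) (t : F →+* ℝ) : t D.bet ≠ 0 := by
  by_cases h : t = D.t0
  · rw [h]; exact D.bet_pos.ne'
  · exact (D.bet_neg t h).ne

theorem qf_ge {b : ℝ} (hb : b < 0) (x : Fin 3 → ℝ) : min 1 |b| * sq3 x ≤ qf b x x := by
  have h1 : min 1 |b| ≤ 1 := min_le_left _ _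
  have h2 : min 1 |b| ≤ |b| := min_le_right _ _
  rw [abs_of_neg hb] at *
  unfold qf sq3
  have a0 := mul_le_mul_of_nonneg_right h1 (sq_nonneg (x 0))
  have a1 := mul_le_mul_of_nonneg_right h1 (sq_nonneg (x 1))
  have a2 := mul_le_mul_of_nonneg_right h2 (sq_nonneg (x 2))
  nlinarith

/-- The form at a place `t ≠ t0`, with a matrix `E`. -/
theorem qE_ge {b lam : ℝ} (hb : b < 0) (hlam : 0 ≤ lam) {E : Matrix (Fin 2) (Fin 2) ℝ}
    (hE : LB lam E) (x y : Fin 3 → ℝ) :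
    lam * min 1 |b| * (sq3 x + sq3 y)
      ≤ E 0 0 * qf b x x + (E 0 1 + E 1 0) * qf b x y + E 1 1 * qf b y y := by
  have h0 := hE (x 0) (y 0)
  have h1 := hE (x 1) (y 1)
  have h2 := mul_le_mul_of_nonneg_left (hE (x 2) (y 2)) (neg_pos.2 hb).le
  have e : E 0 0 * qf b x x + (E 0 1 + E 1 0) * qf b x y + E 1 1 * qf b y y
      = (E 0 0 * x 0 ^ 2 + (E 0 1 + E 1 0) * (x 0 * y 0) + E 1 1 * y 0 ^ 2)
        + (E 0 0 * x 1 ^ 2 + (E 0 1 + E 1 0) * (x 1 * y 1) + E 1 1 * y 1 ^ 2)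
        + (-b) * (E 0 0 * x 2 ^ 2 + (E 0 1 + E 1 0) * (x 2 * y 2) + E 1 1 * y 2 ^ 2) := by
    unfold qf
    ring
  rw [e]
  have h3 := mul_le_mul_of_nonneg_left (qf_ge hb x) hlam
  have h4 := mul_le_mul_of_nonneg_left (qf_ge hb y) hlam
  have e3 : lam * qf b x x = lam * x 0 ^ 2 + lam * x 1 ^ 2 + (-b) * (lam * x 2 ^ 2) := by
    unfold qf
    ring
  have e4 : lam * qf b y y = lam * y 0 ^ 2 + lam * y 1 ^ 2 + (-b) * (lam * y 2 ^ 2) := by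
    unfold qf
    ring
  rw [e3] at h3
  rw [e4] at h4
  linarith

theorem re_e0_ge (D : Dat F) (a : F) {ρ : ℝ} (hρ0 : 0 ≤ ρ) (hρ1 : ρ < 1) {z : ℂ × ℂ}
    (hz : z ∈ sball (D.t0 D.bet) ρ) (x : Fin 3 → F) :
    kap D D.t0 * |D.t0 a| * ((1 - ρ) ^ 3 / 4 * min 1 |D.t0 D.bet|) * sq3 (rx D.t0 x)
      ≤ (e0 D a x z).re := by
  have h := re_q_ge D.bet_pos hρ0 hρ1 hz (rx D.t0 x)
  have hk := kap_pos D D.t0
  have hb := D.bet_pos
  unfold e0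
  rw [Complex.re_ofReal_mul]
  have h1ρ : 0 < 1 - ρ := by linarith
  have h2 : min 1 |D.t0 D.bet| * sq3 (rx D.t0 x)
      ≤ rx D.t0 x 0 ^ 2 + rx D.t0 x 1 ^ 2 + D.t0 D.bet * rx D.t0 x 2 ^ 2 := by
    have m1 : min 1 |D.t0 D.bet| ≤ 1 := min_le_left _ _
    have m2 : min 1 |D.t0 D.bet| ≤ |D.t0 D.bet| := min_le_right _ _
    rw [abs_of_pos hb] at *
    unfold sq3
    have a0 := mul_le_mul_of_nonneg_right m1 (sq_nonneg (rx D.t0 x 0))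
    have a1 := mul_le_mul_of_nonneg_right m1 (sq_nonneg (rx D.t0 x 1))
    have a2 := mul_le_mul_of_nonneg_right m2 (sq_nonneg (rx D.t0 x 2))
    linarith
  calc kap D D.t0 * |D.t0 a| * ((1 - ρ) ^ 3 / 4 * min 1 |D.t0 D.bet|) * sq3 (rx D.t0 x)
      = kap D D.t0 * |D.t0 a| * ((1 - ρ) ^ 3 / 4 * (min 1 |D.t0 D.bet| * sq3 (rx D.t0 x))) := by
        ring
    _ ≤ kap D D.t0 * |D.t0 a| * ((1 - ρ) ^ 3 / 4 *
          (rx D.t0 x 0 ^ 2 + rx D.t0 x 1 ^ 2 + D.t0 D.bet * rx D.t0 x 2 ^ 2)) := by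
        gcongr
    _ ≤ _ := by
        gcongr

theorem sum_erase_add_t0 (D : Dat F) (f : (F →+* ℝ) → ℝ) :
    ∑ t ∈ univ.erase D.t0, f t + f D.t0 = ∑ t, f t :=
  Finset.sum_erase_add univ f (mem_univ D.t0)

/-- The exponent of the theta form. -/
theorem re_exp1_ge (D : Dat F) {a : F} (ha : a ≠ 0) {ρ : ℝ} (hρ0 : 0 ≤ ρ) (hρ1 : ρ < 1) :
    ∃ c : ℝ, 0 < c ∧ ∀ z ∈ sball (D.t0 D.bet) ρ, ∀ x : Fin 3 → F,
      c * nrm x ≤ e1 D a x + (e0 D a x z).re := by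
  have h1ρ : 0 < 1 - ρ := by linarith
  have hc4 : (1 - ρ) ^ 3 / 4 ≤ 1 := by
    have : (1 - ρ) ^ 3 ≤ 1 := pow_le_one₀ h1ρ.le (by linarith)
    linarith
  obtain ⟨c, hc, hle⟩ := exists_pos_le (T := F →+* ℝ)
    (fun t => kap D t * |t a| * ((1 - ρ) ^ 3 / 4 * min 1 |t D.bet|)) (fun t => by
      have h1 := kap_pos D t
      have h2 : 0 < |t a| := abs_pos.2 ((map_ne_zero t).2 ha)
      have h3 : 0 < min 1 |t D.bet| := lt_min one_pos (abs_pos.2 (bet_ne D t))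
      positivity)
  refine ⟨c, hc, fun z hz x => ?_⟩
  rw [nrm_eq, mul_sum, ← sum_erase_add_t0 D (fun t => c * sq3 (rx t x))]
  have h0 := re_e0_ge D a hρ0 hρ1 hz x
  have h0' : c * sq3 (rx D.t0 x) ≤ (e0 D a x z).re :=
    (mul_le_mul_of_nonneg_right (hle D.t0) (sq3_nonneg _)).trans h0
  refine add_le_add ?_ h0'
  unfold e1
  refine sum_le_sum fun t ht => ?_
  have hb := D.bet_neg t (ne_of_mem_erase ht)
  have hq := qf_ge hb (rx t x)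
  have hk := kap_pos D t
  have hs := sq3_nonneg (rx t x)
  calc c * sq3 (rx t x) ≤ kap D t * |t a| * ((1 - ρ) ^ 3 / 4 * min 1 |t D.bet|) * sq3 (rx t x) :=
        mul_le_mul_of_nonneg_right (hle t) hs
    _ ≤ kap D t * |t a| * (1 * min 1 |t D.bet|) * sq3 (rx t x) := by gcongr
    _ = kap D t * (|t a| * (min 1 |t D.bet| * sq3 (rx t x))) := by ring
    _ ≤ _ := by gcongr

/-- The exponent of the kernel. -/
theorem re_exp2_ge (D : Dat F) {a1 a2 : F} (ha1 : a1 ≠ 0) (ha2 : a2 ≠ 0) {ρ lam : ℝ}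
    (hρ0 : 0 ≤ ρ) (hρ1 : ρ < 1) (hlam : 0 < lam) :
    ∃ c : ℝ, 0 < c ∧ ∀ z ∈ sball (D.t0 D.bet) ρ, ∀ E : (F →+* ℝ) → Matrix (Fin 2) (Fin 2) ℝ,
      (∀ t, t ≠ D.t0 → LB lam (E t)) → ∀ x y : Fin 3 → F,
      c * (nrm x + nrm y) ≤ e2 D E x y + (e0 D a1 x z).re + (e0 D a2 y z).re := by
  have h1ρ : 0 < 1 - ρ := by linarith
  have hc4 : (1 - ρ) ^ 3 / 4 ≤ 1 := by
    have : (1 - ρ) ^ 3 ≤ 1 := pow_le_one₀ h1ρ.le (by linarith)
    linarith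
  have hA1 : 0 < |D.t0 a1| := abs_pos.2 ((map_ne_zero D.t0).2 ha1)
  have hA2 : 0 < |D.t0 a2| := abs_pos.2 ((map_ne_zero D.t0).2 ha2)
  set m : ℝ := min lam (min |D.t0 a1| |D.t0 a2|) with hm
  have hm0 : 0 < m := lt_min hlam (lt_min hA1 hA2)
  have hml : m ≤ lam := min_le_left _ _
  have hm1 : m ≤ |D.t0 a1| := (min_le_right _ _).trans (min_le_left _ _)
  have hm2 : m ≤ |D.t0 a2| := (min_le_right _ _).trans (min_le_right _ _)
  obtain ⟨c, hc, hle⟩ := exists_pos_le (T := F →+* ℝ)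
    (fun t => kap D t * m * ((1 - ρ) ^ 3 / 4 * min 1 |t D.bet|)) (fun t => by
      have h1 := kap_pos D t
      have h3 : 0 < min 1 |t D.bet| := lt_min one_pos (abs_pos.2 (bet_ne D t))
      positivity)
  refine ⟨c, hc, fun z hz E hE x y => ?_⟩
  rw [nrm_eq, nrm_eq, ← sum_add_distrib, mul_sum,
    ← sum_erase_add_t0 D (fun t => c * (sq3 (rx t x) + sq3 (rx t y))), add_assoc]
  have hk0 := kap_pos D D.t0
  have hmin0 : 0 < min 1 |D.t0 D.bet| := lt_min one_pos (abs_pos.2 (bet_ne D D.t0))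
  have hx0 := re_e0_ge D a1 hρ0 hρ1 hz x
  have hy0 := re_e0_ge D a2 hρ0 hρ1 hz y
  have hsx := sq3_nonneg (rx D.t0 x)
  have hsy := sq3_nonneg (rx D.t0 y)
  have hx : c * sq3 (rx D.t0 x) ≤ (e0 D a1 x z).re := by
    refine le_trans ?_ hx0
    refine mul_le_mul_of_nonneg_right ((hle D.t0).trans ?_) hsx
    gcongr
  have hy : c * sq3 (rx D.t0 y) ≤ (e0 D a2 y z).re := by
    refine le_trans ?_ hy0
    refine mul_le_mul_of_nonneg_right ((hle D.t0).trans ?_) hsy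
    gcongr
  refine add_le_add ?_ (by rw [mul_add]; exact add_le_add hx hy)
  unfold e2
  refine sum_le_sum fun t ht => ?_
  have hne := ne_of_mem_erase ht
  have hb := D.bet_neg t hne
  have hq := qE_ge hb hlam.le (hE t hne) (rx t x) (rx t y)
  have hk := kap_pos D t
  have hs : 0 ≤ sq3 (rx t x) + sq3 (rx t y) := add_nonneg (sq3_nonneg _) (sq3_nonneg _)
  have hmin : 0 < min 1 |t D.bet| := lt_min one_pos (abs_pos.2 (bet_ne D t))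
  calc c * (sq3 (rx t x) + sq3 (rx t y))
      ≤ kap D t * m * ((1 - ρ) ^ 3 / 4 * min 1 |t D.bet|) * (sq3 (rx t x) + sq3 (rx t y)) :=
        mul_le_mul_of_nonneg_right (hle t) hs
    _ ≤ kap D t * lam * (1 * min 1 |t D.bet|) * (sq3 (rx t x) + sq3 (rx t y)) := by gcongr
    _ = kap D t * (lam * min 1 |t D.bet| * (sq3 (rx t x) + sq3 (rx t y))) := by ring
    _ ≤ _ := by gcongr

theorem norm_tm1_le (D : Dat F) {a : F} (ha : a ≠ 0) {ρ : ℝ} (hρ0 : 0 ≤ ρ) (hρ1 : ρ < 1) :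
    ∃ c : ℝ, 0 < c ∧ ∀ z ∈ sball (D.t0 D.bet) ρ, ∀ x : Fin 3 → F,
      ‖tm1 D a x z‖ ≤ Real.exp (-c * nrm x) := by
  obtain ⟨c, hc, h⟩ := re_exp1_ge D ha hρ0 hρ1
  refine ⟨c, hc, fun z hz x => ?_⟩
  unfold tm1
  rw [Complex.norm_exp]
  apply Real.exp_le_exp.2
  have := h z hz x
  rw [Complex.neg_re, Complex.add_re, Complex.ofReal_re]
  linarith

theorem norm_tm2_le (D : Dat F) {a1 a2 : F} (ha1 : a1 ≠ 0) (ha2 : a2 ≠ 0) {ρ lam : ℝ}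
    (hρ0 : 0 ≤ ρ) (hρ1 : ρ < 1) (hlam : 0 < lam) :
    ∃ c : ℝ, 0 < c ∧ ∀ z ∈ sball (D.t0 D.bet) ρ, ∀ E : (F →+* ℝ) → Matrix (Fin 2) (Fin 2) ℝ,
      (∀ t, t ≠ D.t0 → LB lam (E t)) → ∀ x y : Fin 3 → F,
      ‖tm2 D a1 a2 E x y z‖ ≤ Real.exp (-c * (nrm x + nrm y)) := by
  obtain ⟨c, hc, h⟩ := re_exp2_ge D ha1 ha2 hρ0 hρ1 hlam
  refine ⟨c, hc, fun z hz E hE x y => ?_⟩
  unfold tm2
  rw [Complex.norm_exp]
  apply Real.exp_le_exp.2
  have := h z hz E hE x y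
  rw [Complex.neg_re, Complex.add_re, Complex.add_re, Complex.ofReal_re]
  linarith

/-- Bound of the gradient on the smaller ball. -/
theorem norm_du_le {b ρ : ℝ} (hb : 0 < b) (hρ0 : 0 ≤ ρ) (hρ1 : ρ < 1) :
    ∃ C : ℝ, 0 < C ∧ ∀ z ∈ sball b ρ, ∀ x : Fin 3 → ℝ,
      ‖(du b x z).1‖ ≤ C * (1 + sq3 x) ∧ ‖(du b x z).2‖ ≤ C * (1 + sq3 x) := by
  have h1ρ : 0 < 1 - ρ := by linarith
  set μ : ℝ := (1 - ρ) * b with hμ
  have hμ0 : 0 < μ := by positivity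
  set ν : ℝ := μ * min 1 μ with hν
  have hmin : 0 < min 1 μ := lt_min one_pos hμ0
  have hν0 : 0 < ν := by positivity
  set A : ℝ := 2 * b + (2 * (1 + b) + b) * (1 + b) with hA
  have hA0 : 0 < A := by positivity
  refine ⟨A * 2 / ν, by positivity, fun z hz x => ?_⟩
  have hzb : z ∈ ball b := sball_subset hb hρ0 hρ1.le hz
  have hz2 : ‖z.1‖ ^ 2 + ‖z.2‖ ^ 2 < b := hzb
  have hz1' : ‖z.1‖ ≤ 1 + b := by
    nlinarith [sq_nonneg (‖z.1‖ - 1), sq_nonneg ‖z.2‖, norm_nonneg z.1]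
  have hz2' : ‖z.2‖ ≤ 1 + b := by
    nlinarith [sq_nonneg (‖z.2‖ - 1), sq_nonneg ‖z.1‖, norm_nonneg z.2]
  -- lower bound of |mm|
  have hmm : μ ≤ ‖mm b z‖ := by
    have h1 : μ ≤ (mm b z).re := by
      rw [mm_re]
      have h : ‖z.1‖ ^ 2 + ‖z.2‖ ^ 2 < ρ ^ 2 * b := hz
      rw [normsq_eq, normsq_eq] at h
      have h2 : ρ ^ 2 * b ≤ ρ * b :=
        mul_le_mul_of_nonneg_right (pow_le_of_le_one hρ0 hρ1.le two_ne_zero) hb.le
      have h3 := sq_nonneg z.1.im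
      have h4 := sq_nonneg z.2.im
      rw [hμ]
      linarith
    exact h1.trans ((le_abs_self _).trans (Complex.abs_re_le_norm _))
  -- lower bound of |ss|
  have hss : min 1 μ ≤ ‖ss b z‖ := by
    have h1 : ‖ss b z‖ ^ 2 = ‖mm b z‖ := by rw [← norm_pow, ss_sq hzb]
    by_contra hlt
    push Not at hlt
    have h2 : ‖ss b z‖ ^ 2 < min 1 μ * min 1 μ := by
      have h0 := norm_nonneg (ss b z)
      rw [pow_two]
      exact mul_lt_mul'' hlt hlt h0 h0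
    have h3 : min 1 μ * min 1 μ ≤ 1 * μ :=
      mul_le_mul (min_le_left _ _) (min_le_right _ _) hmin.le zero_le_one
    rw [h1] at h2
    linarith
  have hden : ν ≤ ‖mm b z * ss b z‖ := by
    rw [norm_mul]
    exact mul_le_mul hmm hss hmin.le (norm_nonneg _)
  have hx0 : |x 0| ≤ 1 + sq3 x := by
    unfold sq3
    nlinarith [sq_nonneg (|x 0| - 1), sq_abs (x 0), sq_nonneg (x 1), sq_nonneg (x 2),
      abs_nonneg (x 0)]
  have hx1 : |x 1| ≤ 1 + sq3 x := by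
    unfold sq3
    nlinarith [sq_nonneg (|x 1| - 1), sq_abs (x 1), sq_nonneg (x 0), sq_nonneg (x 2),
      abs_nonneg (x 1)]
  have hx2 : |x 2| ≤ 1 + sq3 x := by
    unfold sq3
    nlinarith [sq_nonneg (|x 2| - 1), sq_abs (x 2), sq_nonneg (x 1), sq_nonneg (x 0),
      abs_nonneg (x 2)]
  have hS := sq3_nonneg x
  have hll : ‖ll b x z‖ ≤ (2 * (1 + b) + b) * (1 + sq3 x) := by
    unfold ll
    calc ‖(x 0 : ℂ) * z.1 + (x 1 : ℂ) * z.2 - (b : ℂ) * (x 2 : ℂ)‖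
        ≤ ‖(x 0 : ℂ) * z.1‖ + ‖(x 1 : ℂ) * z.2‖ + ‖(b : ℂ) * (x 2 : ℂ)‖ := by
          refine (norm_sub_le _ _).trans ?_
          gcongr
          exact norm_add_le _ _
      _ = |x 0| * ‖z.1‖ + |x 1| * ‖z.2‖ + b * |x 2| := by
          rw [norm_mul, norm_mul, norm_mul, Complex.norm_real, Complex.norm_real,
            Complex.norm_real, Complex.norm_real, Real.norm_eq_abs, Real.norm_eq_abs,
            Real.norm_eq_abs, Real.norm_eq_abs, abs_of_pos hb]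
      _ ≤ (1 + sq3 x) * (1 + b) + (1 + sq3 x) * (1 + b) + b * (1 + sq3 x) := by
          gcongr
      _ = _ := by ring
  have hnum : ∀ (r : ℝ) (w : ℂ), |r| ≤ 1 + sq3 x → ‖w‖ ≤ 1 + b →
      ‖(r : ℂ) * mm b z + ll b x z * w‖ ≤ A * (1 + sq3 x) := by
    intro r w hr hw
    calc ‖(r : ℂ) * mm b z + ll b x z * w‖ ≤ ‖(r : ℂ) * mm b z‖ + ‖ll b x z * w‖ :=
          norm_add_le _ _
      _ = |r| * ‖mm b z‖ + ‖ll b x z‖ * ‖w‖ := by
          rw [norm_mul, norm_mul, Complex.norm_real, Real.norm_eq_abs]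
      _ ≤ (1 + sq3 x) * (2 * b) + ((2 * (1 + b) + b) * (1 + sq3 x)) * (1 + b) := by
          have := norm_mm_le hb hzb
          gcongr
      _ = A * (1 + sq3 x) := by rw [hA]; ring
  have hfin : ∀ (r : ℝ) (w : ℂ), |r| ≤ 1 + sq3 x → ‖w‖ ≤ 1 + b →
      ‖((r : ℂ) * mm b z + ll b x z * w) / (mm b z * ss b z)‖ ≤ A * 2 / ν * (1 + sq3 x) := by
    intro r w hr hw
    rw [norm_div, div_le_iff₀ (lt_of_lt_of_le hν0 hden)]
    have h1 := hnum r w hr hw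
    have h2 : 0 ≤ A * 2 / ν * (1 + sq3 x) := by positivity
    calc ‖(r : ℂ) * mm b z + ll b x z * w‖ ≤ A * (1 + sq3 x) := h1
      _ ≤ A * 2 / ν * (1 + sq3 x) * ν := by
          have : A * 2 / ν * (1 + sq3 x) * ν = 2 * (A * (1 + sq3 x)) := by
            field_simp
          rw [this]
          have : 0 ≤ A * (1 + sq3 x) := by positivity
          linarith
      _ ≤ A * 2 / ν * (1 + sq3 x) * ‖mm b z * ss b z‖ := by gcongr
  exact ⟨hfin (x 0) z.1 hx0 hz1', hfin (x 1) z.2 hx1 hz2'⟩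

theorem sq3_le_nrm (t : F →+* ℝ) (x : Fin 3 → F) : sq3 (rx t x) ≤ nrm x := by
  rw [nrm_eq]
  exact single_le_sum (f := fun t : F →+* ℝ => sq3 (rx t x)) (fun _ _ => sq3_nonneg _)
    (mem_univ t)

/-- Terms of the theta form. -/
theorem norm_omterm_le (D : Dat F) {a : F} (ha : a ≠ 0) {ρ : ℝ} (hρ0 : 0 ≤ ρ) (hρ1 : ρ < 1) :
    ∃ C c : ℝ, 0 < C ∧ 0 < c ∧ ∀ (φ : (Fin 3 → F) → ℂ), ∀ z ∈ sball (D.t0 D.bet) ρ,
      ∀ x : Fin 3 → F,
      ‖φ x * tm1 D a x z * (du (D.t0 D.bet) (rx D.t0 x) z).1‖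
          ≤ C * (‖φ x‖ * ((1 + nrm x) ^ 1 * Real.exp (-c * nrm x))) ∧
      ‖φ x * tm1 D a x z * (du (D.t0 D.bet) (rx D.t0 x) z).2‖
          ≤ C * (‖φ x‖ * ((1 + nrm x) ^ 1 * Real.exp (-c * nrm x))) := by
  obtain ⟨c, hc, h1⟩ := norm_tm1_le D ha hρ0 hρ1
  obtain ⟨C, hC, h2⟩ := norm_du_le D.bet_pos hρ0 hρ1
  refine ⟨C, c, hC, hc, fun φ z hz x => ?_⟩
  obtain ⟨h3, h4⟩ := h2 z hz (rx D.t0 x)
  have h5 := h1 z hz x
  have h6 := sq3_le_nrm D.t0 x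
  have h7 := sq3_nonneg (rx D.t0 x)
  constructor
  · rw [norm_mul, norm_mul]
    calc ‖φ x‖ * ‖tm1 D a x z‖ * ‖(du (D.t0 D.bet) (rx D.t0 x) z).1‖
        ≤ ‖φ x‖ * Real.exp (-c * nrm x) * (C * (1 + nrm x)) := by
          refine mul_le_mul (mul_le_mul_of_nonneg_left h5 (norm_nonneg _)) (h3.trans ?_)
            (norm_nonneg _) (by positivity)
          gcongr
      _ = _ := by ring
  · rw [norm_mul, norm_mul]
    calc ‖φ x‖ * ‖tm1 D a x z‖ * ‖(du (D.t0 D.bet) (rx D.t0 x) z).2‖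
        ≤ ‖φ x‖ * Real.exp (-c * nrm x) * (C * (1 + nrm x)) := by
          refine mul_le_mul (mul_le_mul_of_nonneg_left h5 (norm_nonneg _)) (h4.trans ?_)
            (norm_nonneg _) (by positivity)
          gcongr
      _ = _ := by ring

theorem norm_wedge_le {p q : ℂ × ℂ} {A B : ℝ} (hA : 0 ≤ A) (hp1 : ‖p.1‖ ≤ A) (hp2 : ‖p.2‖ ≤ A)
    (hq1 : ‖q.1‖ ≤ B) (hq2 : ‖q.2‖ ≤ B) : ‖wedge p q‖ ≤ 2 * (A * B) := by
  unfold wedge
  calc ‖p.1 * q.2 - p.2 * q.1‖ ≤ ‖p.1 * q.2‖ + ‖p.2 * q.1‖ := norm_sub_le _ _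
    _ = ‖p.1‖ * ‖q.2‖ + ‖p.2‖ * ‖q.1‖ := by rw [norm_mul, norm_mul]
    _ ≤ A * B + A * B := by
        gcongr
    _ = _ := by ring

/-- Terms of the kernel. -/
theorem norm_kerterm_le (D : Dat F) {a1 a2 : F} (ha1 : a1 ≠ 0) (ha2 : a2 ≠ 0) {ρ lam : ℝ}
    (hρ0 : 0 ≤ ρ) (hρ1 : ρ < 1) (hlam : 0 < lam) :
    ∃ C c : ℝ, 0 < C ∧ 0 < c ∧ ∀ (ψ : (Fin 3 → F) × (Fin 3 → F) → ℂ),
      ∀ z ∈ sball (D.t0 D.bet) ρ, ∀ E : (F →+* ℝ) → Matrix (Fin 2) (Fin 2) ℝ,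
      (∀ t, t ≠ D.t0 → LB lam (E t)) → ∀ p : (Fin 3 → F) × (Fin 3 → F),
      ‖ψ p * tm2 D a1 a2 E p.1 p.2 z *
        wedge (du (D.t0 D.bet) (rx D.t0 p.1) z) (du (D.t0 D.bet) (rx D.t0 p.2) z)‖
        ≤ C * (‖ψ p‖ *
          ((1 + (nrm p.1 + nrm p.2)) ^ 2 * Real.exp (-c * (nrm p.1 + nrm p.2)))) := by
  obtain ⟨c, hc, h1⟩ := norm_tm2_le D ha1 ha2 hρ0 hρ1 hlam
  obtain ⟨C, hC, h2⟩ := norm_du_le D.bet_pos hρ0 hρ1
  refine ⟨2 * (C * C), c, by positivity, hc, fun ψ z hz E hE p => ?_⟩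
  obtain ⟨h3, h4⟩ := h2 z hz (rx D.t0 p.1)
  obtain ⟨h3', h4'⟩ := h2 z hz (rx D.t0 p.2)
  have h5 := h1 z hz E hE p.1 p.2
  have h6 := sq3_le_nrm D.t0 p.1
  have h6' := sq3_le_nrm D.t0 p.2
  have h7 := sq3_nonneg (rx D.t0 p.1)
  have h7' := sq3_nonneg (rx D.t0 p.2)
  have h8 := nrm_nonneg p.1
  have h8' := nrm_nonneg p.2
  have hb1 : C * (1 + sq3 (rx D.t0 p.1)) ≤ C * (1 + (nrm p.1 + nrm p.2)) := by
    gcongr; linarith
  have hb2 : C * (1 + sq3 (rx D.t0 p.2)) ≤ C * (1 + (nrm p.1 + nrm p.2)) := by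
    gcongr; linarith
  have hw := norm_wedge_le (by positivity) (h3.trans hb1) (h4.trans hb1) (h3'.trans hb2)
    (h4'.trans hb2)
  rw [norm_mul, norm_mul]
  calc ‖ψ p‖ * ‖tm2 D a1 a2 E p.1 p.2 z‖ * ‖wedge (du (D.t0 D.bet) (rx D.t0 p.1) z)
        (du (D.t0 D.bet) (rx D.t0 p.2) z)‖
      ≤ ‖ψ p‖ * Real.exp (-c * (nrm p.1 + nrm p.2)) *
        (2 * (C * (1 + (nrm p.1 + nrm p.2)) * (C * (1 + (nrm p.1 + nrm p.2))))) :=
        mul_le_mul (mul_le_mul_of_nonneg_left h5 (norm_nonneg _)) hw (norm_nonneg _)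
          (by positivity)
    _ = _ := by ring

end

end CMT
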