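import Mathlib

/-!
PROJECT CMT, part C (analysis), file Holo: sums of holomorphic functions on a complex normed space
are holomorphic (Cauchy estimates along complex lines).
-/

namespace CMT

open Metric

variable {E : Type*} [NormedAddCommGroup E] [NormedSpace ℂ E]

/-- Cauchy estimate for the derivative on a complex normed space. -/
theorem norm_fderiv_le_of_ball {f : E → ℂ} {z : E} {r M : ℝ} (hr : 0 < r)
    (hd : DifferentiableOn ℂ f (ball z r)) (hM : ∀ w ∈ ball z r, ‖f w‖ ≤ M) :
    ‖fderiv ℂ f z‖ ≤ 2 * M / r := by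
  have hM0 : 0 ≤ M := (norm_nonneg _).trans (hM z (mem_ball_self hr))
  refine ContinuousLinearMap.opNorm_le_bound _ (by positivity) fun v => ?_
  rcases eq_or_ne v 0 with hv | hv
  · simp [hv]
  have hv0 : 0 < ‖v‖ := norm_pos_iff.2 hv
  set R : ℝ := r / (2 * ‖v‖) with hR
  have hR0 : 0 < R := by positivity
  have hRv : R * ‖v‖ = r / 2 := by rw [hR]; field_simp
  have hmem : ∀ s : ℂ, ‖s‖ ≤ R → z + s • v ∈ ball z r := by
    intro s hs
    rw [mem_ball, dist_eq_norm, add_sub_cancel_left, norm_smul]
    have : ‖s‖ * ‖v‖ ≤ R * ‖v‖ := by gcongr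
    rw [hRv] at this
    linarith
  let g : ℂ → ℂ := fun s => f (z + s • v)
  have hline : ∀ s : ℂ, HasFDerivAt (fun s : ℂ => z + s • v)
      ((ContinuousLinearMap.id ℂ ℂ).smulRight v) s := by
    intro s
    have h := ((ContinuousLinearMap.id ℂ ℂ).smulRight v).hasFDerivAt (x := s)
    exact h.const_add z
  have hdg : ∀ s : ℂ, ‖s‖ ≤ R → DifferentiableAt ℂ g s := by
    intro s hs
    have h1 : DifferentiableAt ℂ f (z + s • v) :=
      hd.differentiableAt (isOpen_ball.mem_nhds (hmem s hs))
    exact h1.comp s (hline s).differentiableAt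
  have hDC : DiffContOnCl ℂ g (ball 0 R) := by
    refine ⟨fun s hs => (hdg s (by simpa using (mem_ball_zero_iff.1 hs).le)).differentiableWithinAt,
      fun s hs => ?_⟩
    have hs' : ‖s‖ ≤ R := by
      have := closure_ball_subset_closedBall hs
      simpa using this
    exact (hdg s hs').continuousAt.continuousWithinAt
  have hderiv : deriv g 0 = fderiv ℂ f z v := by
    have h1 : HasFDerivAt f (fderiv ℂ f z) (z + (0 : ℂ) • v) := by
      rw [zero_smul, add_zero]
      exact (hd.differentiableAt (isOpen_ball.mem_nhds (mem_ball_self hr))).hasFDerivAt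
    have h2 := (h1.comp (0 : ℂ) (hline 0)).hasDerivAt
    have h3 : (fderiv ℂ f z ∘L (ContinuousLinearMap.id ℂ ℂ).smulRight v) 1 = fderiv ℂ f z v := by
      simp
    rw [← h3]
    exact h2.deriv
  rw [← hderiv]
  have h4 := Complex.norm_deriv_le_of_forall_mem_sphere_norm_le (c := 0) (C := M) hR0 hDC
    (fun s hs => hM _ (hmem s (by simpa using (mem_sphere_zero_iff_norm.1 hs).le)))
  refine h4.trans (le_of_eq ?_)
  rw [hR]
  field_simp

/-- A sum of holomorphic functions with summable bounds near every point is holomorphic. -/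
theorem differentiableAt_tsum_of_bound {ι : Type*} {f : ι → E → ℂ} {u : ι → ℝ}
    (hu : Summable u) {z : E} {r : ℝ} (hr : 0 < r)
    (hd : ∀ i, DifferentiableOn ℂ (f i) (ball z r)) (hb : ∀ i, ∀ w ∈ ball z r, ‖f i w‖ ≤ u i) :
    DifferentiableAt ℂ (fun w => ∑' i, f i w) z := by
  have hr2 : 0 < r / 2 := half_pos hr
  have hsub : ∀ w ∈ ball z (r / 2), ball w (r / 2) ⊆ ball z r := by
    intro w hw y hy
    rw [mem_ball] at *
    have := dist_triangle y w z
    linarith
  have h := hasFDerivAt_tsum_of_isPreconnected (𝕜 := ℂ) (f := f)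
    (f' := fun i w => fderiv ℂ (f i) w) (u := fun i => 2 * u i / (r / 2))
    (s := ball z (r / 2)) (x₀ := z) (x := z) ?_ isOpen_ball ?_ ?_ ?_ (mem_ball_self hr2) ?_
    (mem_ball_self hr2)
  · exact h.differentiableAt
  · have := hu.mul_left (2 / (r / 2))
    refine this.congr fun i => by ring
  · let _ : NormedSpace ℝ E := NormedSpace.restrictScalars ℝ ℂ E
    exact (convex_ball z (r / 2)).isPreconnected
  · intro i w hw
    have hw' : w ∈ ball z r := hsub w hw (mem_ball_self hr2)
    exact ((hd i).differentiableAt (isOpen_ball.mem_nhds hw')).hasFDerivAt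
  · intro i w hw
    exact norm_fderiv_le_of_ball hr2 ((hd i).mono (hsub w hw)) (fun y hy => hb i y (hsub w hw hy))
  · exact Summable.of_norm_bounded hu fun i => hb i z (mem_ball_self hr)

end CMT
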