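import Pool.Agent.Lib.CMT.Iface
import Pool.Agent.Lib.CMT.C.Term
import Pool.Agent.Lib.CMT.C.Holo

/-!
PROJECT CMT, part C (analysis), file Om: `S_SumOm`, `S_ContOm`, `S_Prim`, holomorphy of the
coefficients of the theta forms.
-/

namespace CMT

open Finset NumberField

noncomputable section

/-! ### the small balls -/

theorem isOpen_sball (b ρ : ℝ) : IsOpen (sball b ρ) := by
  unfold sball
  exact isOpen_lt (by fun_prop) continuous_const

theorem isOpen_ball' (b : ℝ) : IsOpen (ball b) := by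
  unfold ball
  exact isOpen_lt (by fun_prop) continuous_const

theorem zero_mem_sball {b ρ : ℝ} (hb : 0 < b) (hρ : 0 < ρ) : (0 : ℂ × ℂ) ∈ sball b ρ := by
  change ‖(0 : ℂ)‖ ^ 2 + ‖(0 : ℂ)‖ ^ 2 < ρ ^ 2 * b
  rw [norm_zero]
  have : 0 < ρ ^ 2 * b := by positivity
  linarith

theorem isPreconnected_sball {b ρ : ℝ} (hb : 0 < b) (hρ : 0 < ρ) :
    IsPreconnected (sball b ρ) := by
  have h : StarConvex ℝ (0 : ℂ × ℂ) (sball b ρ) := by
    intro z hz s t hs ht hst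
    have hz' : ‖z.1‖ ^ 2 + ‖z.2‖ ^ 2 < ρ ^ 2 * b := hz
    change ‖(s • (0 : ℂ × ℂ) + t • z).1‖ ^ 2 + ‖(s • (0 : ℂ × ℂ) + t • z).2‖ ^ 2 < ρ ^ 2 * b
    have ht1 : t ≤ 1 := by linarith
    have h1 : (s • (0 : ℂ × ℂ) + t • z).1 = (t : ℂ) * z.1 := by simp
    have h2 : (s • (0 : ℂ × ℂ) + t • z).2 = (t : ℂ) * z.2 := by simp
    rw [h1, h2, norm_mul, norm_mul, Complex.norm_real, Real.norm_of_nonneg ht]
    have h3 : (t * ‖z.1‖) ^ 2 ≤ ‖z.1‖ ^ 2 := by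
      have : t * ‖z.1‖ ≤ ‖z.1‖ := mul_le_of_le_one_left (norm_nonneg _) ht1
      gcongr
    have h4 : (t * ‖z.2‖) ^ 2 ≤ ‖z.2‖ ^ 2 := by
      have : t * ‖z.2‖ ≤ ‖z.2‖ := mul_le_of_le_one_left (norm_nonneg _) ht1
      gcongr
    linarith
  exact (h.isPathConnected (zero_mem_sball hb hρ)).isConnected.isPreconnected

theorem exists_rho_of_lt {b q : ℝ} (hb : 0 < b) (hq : q < b) :
    ∃ ρ : ℝ, 0 < ρ ∧ ρ < 1 ∧ q < ρ ^ 2 * b := by
  set m : ℝ := max 0 (q / b) with hm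
  have hm0 : 0 ≤ m := le_max_left _ _
  have hm1 : m < 1 := max_lt one_pos ((div_lt_one hb).2 hq)
  refine ⟨Real.sqrt ((m + 1) / 2), Real.sqrt_pos.2 (by positivity), ?_, ?_⟩
  · rw [Real.sqrt_lt' one_pos]
    linarith
  · rw [Real.sq_sqrt (by positivity)]
    have h1 : q / b ≤ m := le_max_right _ _
    have h2 : q / b < (m + 1) / 2 := by linarith
    exact (div_lt_iff₀ hb).1 h2

theorem exists_rho_of_mem {b : ℝ} (hb : 0 < b) {z : ℂ × ℂ} (hz : z ∈ ball b) :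
    ∃ ρ : ℝ, 0 < ρ ∧ ρ < 1 ∧ z ∈ sball b ρ :=
  exists_rho_of_lt hb hz

theorem exists_rho_of_compact {b : ℝ} (hb : 0 < b) {C : Set (ℂ × ℂ)} (hC : IsCompact C)
    (hCb : C ⊆ ball b) : ∃ ρ : ℝ, 0 < ρ ∧ ρ < 1 ∧ C ⊆ sball b ρ := by
  rcases C.eq_empty_or_nonempty with h | h
  · exact ⟨1 / 2, by norm_num, by norm_num, by rw [h]; exact Set.empty_subset _⟩
  · obtain ⟨w, hw, hmax⟩ := hC.exists_isMaxOn h
      (f := fun z : ℂ × ℂ => ‖z.1‖ ^ 2 + ‖z.2‖ ^ 2) (by fun_prop)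
    obtain ⟨ρ, h0, h1, h2⟩ := exists_rho_of_lt hb (hCb hw)
    exact ⟨ρ, h0, h1, fun z hz => lt_of_le_of_lt (hmax hz) h2⟩

/-! ### derivatives of `mm`, `ss`, `ll`, `uu` -/

theorem hasFDerivAt_mm (b : ℝ) (z : ℂ × ℂ) :
    HasFDerivAt (mm b) (-(2 * z.1) • ContinuousLinearMap.fst ℂ ℂ ℂ
      - (2 * z.2) • ContinuousLinearMap.snd ℂ ℂ ℂ) z := by
  have h1 : HasFDerivAt (fun z : ℂ × ℂ => z.1) (ContinuousLinearMap.fst ℂ ℂ ℂ) z := hasFDerivAt_fst
  have h2 : HasFDerivAt (fun z : ℂ × ℂ => z.2) (ContinuousLinearMap.snd ℂ ℂ ℂ) z := hasFDerivAt_snd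
  have h3 := ((h1.pow 2).const_sub (b : ℂ)).sub (h2.pow 2)
  refine h3.congr_fderiv ?_
  ext <;> simp

theorem hasFDerivAt_ss {b : ℝ} {z : ℂ × ℂ} (hz : z ∈ ball b) :
    HasFDerivAt (ss b) (-(z.1 * ss b z / mm b z) • ContinuousLinearMap.fst ℂ ℂ ℂ
      - (z.2 * ss b z / mm b z) • ContinuousLinearMap.snd ℂ ℂ ℂ) z := by
  have hm := mm_ne hz
  have h1 : HasDerivAt (fun w : ℂ => w ^ ((1 : ℂ) / 2))
      ((1 : ℂ) / 2 * (mm b z) ^ ((1 : ℂ) / 2 - 1)) (mm b z) :=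
    (Complex.hasStrictDerivAt_cpow_const (mm_slit hz)).hasDerivAt
  have h2 := h1.comp_hasFDerivAt z (hasFDerivAt_mm b z)
  have h3 : (mm b z) ^ ((1 : ℂ) / 2 - 1) = ss b z / mm b z := by
    rw [Complex.cpow_sub _ _ hm, Complex.cpow_one]
    rfl
  rw [h3] at h2
  refine HasFDerivAt.congr_fderiv (f := ss b) h2 ?_
  ext <;> simp <;> ring

theorem hasFDerivAt_ll (b : ℝ) (x : Fin 3 → ℝ) (z : ℂ × ℂ) :
    HasFDerivAt (ll b x) ((x 0 : ℂ) • ContinuousLinearMap.fst ℂ ℂ ℂ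
      + (x 1 : ℂ) • ContinuousLinearMap.snd ℂ ℂ ℂ) z := by
  have h1 : HasFDerivAt (fun z : ℂ × ℂ => z.1) (ContinuousLinearMap.fst ℂ ℂ ℂ) z := hasFDerivAt_fst
  have h2 : HasFDerivAt (fun z : ℂ × ℂ => z.2) (ContinuousLinearMap.snd ℂ ℂ ℂ) z := hasFDerivAt_snd
  have h3 := ((h1.const_mul (x 0 : ℂ)).add (h2.const_mul (x 1 : ℂ))).sub_const
    ((b : ℂ) * (x 2 : ℂ))
  exact h3

theorem hasFDerivAt_uu {b : ℝ} {z : ℂ × ℂ} (hz : z ∈ ball b) (x : Fin 3 → ℝ) :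
    HasFDerivAt (uu b x) ((du b x z).1 • ContinuousLinearMap.fst ℂ ℂ ℂ
      + (du b x z).2 • ContinuousLinearMap.snd ℂ ℂ ℂ) z := by
  have hm := mm_ne hz
  have hs := ss_ne hz
  have hss := ss_sq hz
  have h1 := (hasDerivAt_inv hs).comp_hasFDerivAt z (hasFDerivAt_ss hz)
  have h2 := (hasFDerivAt_ll b x z).mul h1
  have h3 : uu b x = ll b x * (Inv.inv ∘ ss b) := by
    funext w
    simp [uu, div_eq_mul_inv]
  rw [h3]
  refine h2.congr_fderiv ?_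
  have hs2 : (ss b z ^ 2)⁻¹ = (mm b z)⁻¹ := by rw [hss]
  ext
  · simp [du, hss]
    field_simp
    rw [hss]
    ring
  · simp [du, hss]
    field_simp
    rw [hss]
    ring

/-! ### the terms -/

variable {F : Type} [Field F] [NumberField F]

theorem Ball_eq (D : Dat F) : Ball D = ball (D.t0 D.bet) := rfl

/-- `c = κ |t0 a|`. -/
def cc (D : Dat F) (a : F) : ℝ := kap D D.t0 * |D.t0 a|

/-- The constant part of the exponent. -/
def ec (D : Dat F) (a : F) (x : Fin 3 → F) : ℝ :=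
  e1 D a x + cc D a * qf (D.t0 D.bet) (rx D.t0 x) (rx D.t0 x)

theorem tm1_eq (D : Dat F) (a : F) (x : Fin 3 → F) (z : ℂ × ℂ) :
    tm1 D a x z = Complex.exp (-(ec D a x : ℂ)) *
      Complex.exp (-(2 * (cc D a : ℂ)) * uu (D.t0 D.bet) (rx D.t0 x) z ^ 2) := by
  unfold tm1 e0 ec cc
  rw [← Complex.exp_add]
  congr 1
  push_cast
  ring

/-- A primitive of `exp (-2 c w²)`. -/
theorem exists_prim (c : ℂ) : ∃ G : ℂ → ℂ, ∀ w, HasDerivAt G (Complex.exp (-(2 * c) * w ^ 2)) w := by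
  have h : Differentiable ℂ (fun w : ℂ => Complex.exp (-(2 * c) * w ^ 2)) := by fun_prop
  obtain ⟨G, hG⟩ := h.isExactOn_univ
  exact ⟨G, fun w => hG w (Set.mem_univ w)⟩

theorem hasFDerivAt_term (D : Dat F) (a : F) {G : ℂ → ℂ}
    (hG : ∀ w, HasDerivAt G (Complex.exp (-(2 * (cc D a : ℂ)) * w ^ 2)) w) (k c0 : ℂ)
    (x : Fin 3 → F) {z : ℂ × ℂ} (hz : z ∈ Ball D) :
    HasFDerivAt (fun z => k * Complex.exp (-(ec D a x : ℂ)) *
        (G (uu (D.t0 D.bet) (rx D.t0 x) z) - c0))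
      ((k * tm1 D a x z * (du (D.t0 D.bet) (rx D.t0 x) z).1) • ContinuousLinearMap.fst ℂ ℂ ℂ +
        (k * tm1 D a x z * (du (D.t0 D.bet) (rx D.t0 x) z).2) • ContinuousLinearMap.snd ℂ ℂ ℂ)
      z := by
  have h1 := ((hG _).comp_hasFDerivAt z (hasFDerivAt_uu (b := D.t0 D.bet) hz (rx D.t0 x)))
  have h2 := (h1.sub_const c0).const_mul (k * Complex.exp (-(ec D a x : ℂ)))
  refine h2.congr_fderiv ?_
  rw [tm1_eq]
  ext
  · simp
    ring
  · simp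
    ring

theorem differentiableAt_tm1 (D : Dat F) (a : F) (x : Fin 3 → F) {z : ℂ × ℂ} (hz : z ∈ Ball D) :
    DifferentiableAt ℂ (tm1 D a x) z := by
  have h1 := (hasFDerivAt_uu (b := D.t0 D.bet) hz (rx D.t0 x)).differentiableAt
  have h2 : tm1 D a x = fun z => Complex.exp (-(ec D a x : ℂ)) *
      Complex.exp (-(2 * (cc D a : ℂ)) * uu (D.t0 D.bet) (rx D.t0 x) z ^ 2) := by
    funext z
    exact tm1_eq D a x z
  rw [h2]
  fun_prop

theorem differentiableAt_du {b : ℝ} {z : ℂ × ℂ} (hz : z ∈ ball b) (x : Fin 3 → ℝ) :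
    DifferentiableAt ℂ (fun z => (du b x z).1) z ∧ DifferentiableAt ℂ (fun z => (du b x z).2) z := by
  have h1 := (hasFDerivAt_mm b z).differentiableAt
  have h2 := (hasFDerivAt_ss hz).differentiableAt
  have h3 := (hasFDerivAt_ll b x z).differentiableAt
  have h4 : mm b z * ss b z ≠ 0 := mul_ne_zero (mm_ne hz) (ss_ne hz)
  have e1 : (fun z => (du b x z).1)
      = fun z : ℂ × ℂ => ((x 0 : ℂ) * mm b z + ll b x z * z.1) / (mm b z * ss b z) := rfl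
  have e2 : (fun z => (du b x z).2)
      = fun z : ℂ × ℂ => ((x 1 : ℂ) * mm b z + ll b x z * z.2) / (mm b z * ss b z) := rfl
  rw [e1, e2]
  constructor
  · simp only [div_eq_mul_inv]
    exact DifferentiableAt.fun_mul
      ((h1.const_mul (x 0 : ℂ)).add (DifferentiableAt.fun_mul h3 differentiableAt_fst))
      (DifferentiableAt.fun_inv (DifferentiableAt.fun_mul h1 h2) h4)
  · simp only [div_eq_mul_inv]
    exact DifferentiableAt.fun_mul
      ((h1.const_mul (x 1 : ℂ)).add (DifferentiableAt.fun_mul h3 differentiableAt_snd))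
      (DifferentiableAt.fun_inv (DifferentiableAt.fun_mul h1 h2) h4)

/-! ### the theta forms -/

theorem pSumOm : S_SumOm := by
  intro F _ _ _ D a ha φ hφ z hz
  obtain ⟨n, hn, hSB⟩ := hφ
  obtain ⟨ρ, hρ0, hρ1, hzρ⟩ := exists_rho_of_mem D.bet_pos hz
  obtain ⟨C, c, hC, hc, hb⟩ := norm_omterm_le D ha hρ0.le hρ1
  have hs := (hSB.summable hn 1 c hc).mul_left C
  exact ⟨hs.of_nonneg_of_le (fun _ => norm_nonneg _) fun x => (hb φ z hzρ x).1,
    hs.of_nonneg_of_le (fun _ => norm_nonneg _) fun x => (hb φ z hzρ x).2⟩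

/-- The coefficients of the theta forms are holomorphic. -/
theorem differentiableAt_om [IsTotallyReal F] (D : Dat F) {a : F} (ha : a ≠ 0)
    {φ : (Fin 3 → F) → ℂ} (hφ : IsSB φ) {z : ℂ × ℂ} (hz : z ∈ Ball D) :
    DifferentiableAt ℂ (fun z => (om D a φ z).1) z ∧
      DifferentiableAt ℂ (fun z => (om D a φ z).2) z := by
  obtain ⟨n, hn, hSB⟩ := hφ
  obtain ⟨ρ, hρ0, hρ1, hzρ⟩ := exists_rho_of_mem D.bet_pos hz
  obtain ⟨C, c, hC, hc, hb⟩ := norm_omterm_le D ha hρ0.le hρ1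
  have hs := (hSB.summable hn 1 c hc).mul_left C
  obtain ⟨r, hr, hball⟩ := Metric.isOpen_iff.1 (isOpen_sball (D.t0 D.bet) ρ) z hzρ
  have hsub : sball (D.t0 D.bet) ρ ⊆ Ball D := sball_subset D.bet_pos hρ0.le hρ1.le
  constructor
  · refine differentiableAt_tsum_of_bound hs hr (fun x w hw => ?_)
      (fun x w hw => (hb φ w (hball hw) x).1)
    have hw' := hsub (hball hw)
    exact (((differentiableAt_tm1 D a x hw').const_mul _).mul
      (differentiableAt_du hw' _).1).differentiableWithinAt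
  · refine differentiableAt_tsum_of_bound hs hr (fun x w hw => ?_)
      (fun x w hw => (hb φ w (hball hw) x).2)
    have hw' := hsub (hball hw)
    exact (((differentiableAt_tm1 D a x hw').const_mul _).mul
      (differentiableAt_du hw' _).2).differentiableWithinAt

theorem pContOm : S_ContOm := by
  intro F _ _ _ D a ha φ hφ z hz
  obtain ⟨h1, h2⟩ := differentiableAt_om D ha hφ hz
  exact (h1.continuousAt.prodMk h2.continuousAt).continuousWithinAt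

theorem pPrim : S_Prim := by
  intro F _ _ _ D a ha φ hφ
  have hφ' := hφ
  obtain ⟨n, hn, hSB⟩ := hφ
  obtain ⟨G, hG⟩ := exists_prim (cc D a : ℂ)
  let f : (Fin 3 → F) → ℂ × ℂ → ℂ := fun x z => φ x * Complex.exp (-(ec D a x : ℂ)) *
    (G (uu (D.t0 D.bet) (rx D.t0 x) z) - G (uu (D.t0 D.bet) (rx D.t0 x) 0))
  refine ⟨fun z => ∑' x, f x z, fun z hz => ?_⟩
  obtain ⟨ρ, hρ0, hρ1, hzρ⟩ := exists_rho_of_mem D.bet_pos hz
  obtain ⟨C, c, hC, hc, hb⟩ := norm_omterm_le D ha hρ0.le hρ1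
  have hs := (hSB.summable hn 1 c hc).mul_left C
  have hs2 := hs.mul_left 2
  have hsub : sball (D.t0 D.bet) ρ ⊆ Ball D := sball_subset D.bet_pos hρ0.le hρ1.le
  have h := hasFDerivAt_tsum_of_isPreconnected (𝕜 := ℂ) (f := f)
    (f' := fun x z => (φ x * tm1 D a x z * (du (D.t0 D.bet) (rx D.t0 x) z).1) •
        ContinuousLinearMap.fst ℂ ℂ ℂ + (φ x * tm1 D a x z * (du (D.t0 D.bet) (rx D.t0 x) z).2) •
        ContinuousLinearMap.snd ℂ ℂ ℂ) hs2 (isOpen_sball _ ρ)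
    (isPreconnected_sball D.bet_pos hρ0)
    (fun x w hw => hasFDerivAt_term D a hG (φ x) (G (uu (D.t0 D.bet) (rx D.t0 x) 0)) x (hsub hw))
    (fun x w hw => ?_) (zero_mem_sball D.bet_pos hρ0) ?_ hzρ
  · refine h.congr_fderiv ?_
    obtain ⟨s1, s2⟩ := pSumOm F D a ha φ hφ' z hz
    exact ((s1.of_norm.hasSum.smul_const (ContinuousLinearMap.fst ℂ ℂ ℂ)).add
      (s2.of_norm.hasSum.smul_const (ContinuousLinearMap.snd ℂ ℂ ℂ))).tsum_eq
  · obtain ⟨b1, b2⟩ := hb φ w hw x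
    refine (norm_add_le _ _).trans ?_
    rw [norm_smul, norm_smul]
    have n1 : ‖ContinuousLinearMap.fst ℂ ℂ ℂ‖ ≤ 1 := ContinuousLinearMap.norm_fst_le ℂ ℂ ℂ
    have n2 : ‖ContinuousLinearMap.snd ℂ ℂ ℂ‖ ≤ 1 := ContinuousLinearMap.norm_snd_le ℂ ℂ ℂ
    have t1 := mul_le_mul b1 n1 (norm_nonneg _) ((norm_nonneg _).trans b1)
    have t2 := mul_le_mul b2 n2 (norm_nonneg _) ((norm_nonneg _).trans b2)
    linarith
  · refine summable_zero.congr fun x => ?_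
    simp [f]

end

end CMT
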