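import Pool.Agent.Lib.CMT.C.Lat

/-!
PROJECT CMT, part C (analysis), file Bd: Schwartz-Bruhat functions are bounded, the weighted
Gaussian sums of a Schwartz-Bruhat function converge (one vector and two vectors).
-/

namespace CMT

open Finset NumberField

noncomputable section

variable {F : Type} [Field F] [NumberField F]

/-- Finitely many representatives of `(1/N) O^ι` modulo `N O^ι`. -/
theorem exists_finite_reps (F : Type) [Field F] [NumberField F] (ι : Type*) [Fintype ι] (N : ℕ)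
    (hN : 0 < N) : ∃ S : Set (ι → F), S.Finite ∧ ∀ x ∈ lat F ι N, ∃ x' ∈ S, ∃ y : ι → F,
      (∀ i, IsIntegral ℤ (y i)) ∧ x = fun i => x' i + (N : F) * y i := by
  classical
  let J := Module.Free.ChooseBasisIndex ℤ (𝓞 F)
  let b := RingOfIntegers.basis F
  have hNF : (N : F) ≠ 0 := by exact_mod_cast hN.ne'
  let vec : (ι × J → ℤ) → (ι → F) := fun r i => (N : F)⁻¹ * ((∑ j : J, r (i, j) • b j : 𝓞 F) : F)
  refine ⟨vec '' Set.Icc (0 : ι × J → ℤ) (fun _ => (N : ℤ) ^ 2), (Set.finite_Icc _ _).image _, ?_⟩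
  intro x hx
  let n : ι × J → ℤ := fun p => b.repr (⟨(N : F) * x p.1, hx p.1⟩ : 𝓞 F) p.2
  have hN2 : (0 : ℤ) < (N : ℤ) ^ 2 := by positivity
  let r : ι × J → ℤ := fun p => n p % (N : ℤ) ^ 2
  let q : ι × J → ℤ := fun p => n p / (N : ℤ) ^ 2
  refine ⟨vec r, ⟨r, ⟨fun p => ?_, fun p => ?_⟩, rfl⟩,
    fun i => ((∑ j : J, q (i, j) • b j : 𝓞 F) : F), fun i => RingOfIntegers.isIntegral_coe _, ?_⟩
  · exact Int.emod_nonneg _ hN2.ne'
  · exact (Int.emod_lt_of_pos _ hN2).le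
  · funext i
    have h1 : (⟨(N : F) * x i, hx i⟩ : 𝓞 F) = ∑ j : J, n (i, j) • b j :=
      (b.sum_repr _).symm
    have h2 : (∑ j : J, n (i, j) • b j : 𝓞 F)
        = ∑ j : J, r (i, j) • b j + ((N : ℤ) ^ 2) • ∑ j : J, q (i, j) • b j := by
      rw [smul_sum, ← sum_add_distrib]
      refine sum_congr rfl fun j _ => ?_
      rw [smul_smul, ← add_smul]
      congr 1
      change n (i, j) = n (i, j) % (N : ℤ) ^ 2 + (N : ℤ) ^ 2 * (n (i, j) / (N : ℤ) ^ 2)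
      exact (Int.emod_add_mul_ediv _ _).symm
    have h3 : (N : F) * x i = ((∑ j : J, r (i, j) • b j : 𝓞 F) : F)
        + (N : F) ^ 2 * ((∑ j : J, q (i, j) • b j : 𝓞 F) : F) := by
      have h4 := congrArg (algebraMap (𝓞 F) F) (h1.trans h2)
      rw [map_add, map_zsmul, zsmul_eq_mul] at h4
      have h5 : (((N : ℤ) ^ 2 : ℤ) : F) = (N : F) ^ 2 := by
        push_cast
        rfl
      rw [h5] at h4
      exact h4
    change x i = (N : F)⁻¹ * ((∑ j : J, r (i, j) • b j : 𝓞 F) : F)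
      + (N : F) * ((∑ j : J, q (i, j) • b j : 𝓞 F) : F)
    have h6 : x i = (N : F)⁻¹ * ((N : F) * x i) := by
      field_simp
    rw [h6, h3]
    field_simp

/-- Schwartz-Bruhat functions of level `n` on `F^ι`. -/
def SBg {ι : Type*} (n : ℕ) (φ : (ι → F) → ℂ) : Prop :=
  (∀ x, φ x ≠ 0 → ∀ i, IsIntegral ℤ ((n : F) * x i)) ∧
  ∀ x y : ι → F, (∀ i, IsIntegral ℤ (y i)) → φ (fun i => x i + (n : F) * y i) = φ x

theorem SBg.exists_bound {ι : Type*} [Fintype ι] {φ : (ι → F) → ℂ} {N : ℕ} (hN : 0 < N)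
    (h : SBg N φ) : ∃ M : ℝ, 0 ≤ M ∧ ∀ x, ‖φ x‖ ≤ M := by
  classical
  obtain ⟨hsupp, hper⟩ := h
  obtain ⟨S, hS, hrep⟩ := exists_finite_reps F ι N hN
  refine ⟨∑ x ∈ hS.toFinset, ‖φ x‖, sum_nonneg fun _ _ => norm_nonneg _, fun x => ?_⟩
  by_cases hx : φ x = 0
  · rw [hx, norm_zero]
    exact sum_nonneg fun _ _ => norm_nonneg _
  · obtain ⟨x', hx', y, hy, hxy⟩ := hrep x (hsupp x hx)
    have h1 : φ x = φ x' := by
      rw [hxy]
      exact hper x' y hy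
    rw [h1]
    exact single_le_sum (f := fun x => ‖φ x‖) (fun _ _ => norm_nonneg _)
      (hS.mem_toFinset.2 hx')

theorem SBg.summable [IsTotallyReal F] {ι : Type*} [Fintype ι] {φ : (ι → F) → ℂ} {N : ℕ}
    (hN : 0 < N) (h : SBg N φ) (k : ℕ) (c : ℝ) (hc : 0 < c) :
    Summable fun x => ‖φ x‖ * ((1 + nrm x) ^ k * Real.exp (-c * nrm x)) := by
  obtain ⟨M, _, hM⟩ := h.exists_bound hN
  exact summable_of_supp hN hM h.1 k c hc

/-- The bijection between pairs of vectors and long vectors. -/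
def pairE (F : Type) (ι : Type*) : (ι → F) × (ι → F) ≃ (ι ⊕ ι → F) :=
  (Equiv.sumArrowEquivProdArrow ι ι F).symm

theorem nrm_pairE {ι : Type*} [Fintype ι] (p : (ι → F) × (ι → F)) :
    nrm (pairE F ι p) = nrm p.1 + nrm p.2 := by
  unfold nrm
  rw [Fintype.sum_sum_type]
  rfl

omit [NumberField F] in
theorem SB.sbg {φ : (Fin 3 → F) → ℂ} {N : ℕ} (h : SB N φ) : SBg N φ := h

omit [NumberField F] in
theorem SB2.sbg {ψ : (Fin 3 → F) × (Fin 3 → F) → ℂ} {N : ℕ} (h : SB2 N ψ) :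
    SBg N (fun x => ψ ((pairE F (Fin 3)).symm x)) := by
  obtain ⟨hsupp, hper⟩ := h
  refine ⟨fun x hx i => ?_, fun x y hy => ?_⟩
  · obtain ⟨h1, h2⟩ := hsupp _ hx
    rcases i with i | i
    · exact h1 i
    · exact h2 i
  · exact hper ((pairE F (Fin 3)).symm x) ((pairE F (Fin 3)).symm y).1
      ((pairE F (Fin 3)).symm y).2 (fun i => hy (Sum.inl i)) (fun i => hy (Sum.inr i))

theorem SB.exists_bound {φ : (Fin 3 → F) → ℂ} {N : ℕ} (hN : 0 < N) (h : SB N φ) :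
    ∃ M : ℝ, 0 ≤ M ∧ ∀ x, ‖φ x‖ ≤ M :=
  h.sbg.exists_bound hN

theorem SB2.exists_bound {ψ : (Fin 3 → F) × (Fin 3 → F) → ℂ} {N : ℕ} (hN : 0 < N)
    (h : SB2 N ψ) : ∃ M : ℝ, 0 ≤ M ∧ ∀ p, ‖ψ p‖ ≤ M := by
  obtain ⟨M, h0, hM⟩ := h.sbg.exists_bound hN
  refine ⟨M, h0, fun p => ?_⟩
  have := hM (pairE F (Fin 3) p)
  rwa [Equiv.symm_apply_apply] at this

theorem SB.summable [IsTotallyReal F] {φ : (Fin 3 → F) → ℂ} {N : ℕ} (hN : 0 < N) (h : SB N φ)
    (k : ℕ) (c : ℝ) (hc : 0 < c) :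
    Summable fun x => ‖φ x‖ * ((1 + nrm x) ^ k * Real.exp (-c * nrm x)) :=
  h.sbg.summable hN k c hc

/-- Gaussian sums over pairs of vectors in the lattice, for bounded functions. -/
theorem summable_of_supp2 [IsTotallyReal F] {ψ : (Fin 3 → F) × (Fin 3 → F) → ℂ} {N : ℕ}
    (hN : 0 < N) {M : ℝ} (hM : ∀ p, ‖ψ p‖ ≤ M)
    (hs : ∀ p, ψ p ≠ 0 → p.1 ∈ lat F (Fin 3) N ∧ p.2 ∈ lat F (Fin 3) N) (k : ℕ)
    (c : ℝ) (hc : 0 < c) :
    Summable fun p => ‖ψ p‖ *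
      ((1 + (nrm p.1 + nrm p.2)) ^ k * Real.exp (-c * (nrm p.1 + nrm p.2))) := by
  have h1 := summable_of_supp (φ := fun x => ψ ((pairE F (Fin 3)).symm x)) (N := N) hN
    (fun x => hM _) (fun x hx i => by
      obtain ⟨h1, h2⟩ := hs _ hx
      rcases i with i | i
      · exact h1 i
      · exact h2 i) k c hc
  rw [← (pairE F (Fin 3)).summable_iff] at h1
  refine h1.congr fun p => ?_
  simp only [Function.comp_apply, Equiv.symm_apply_apply, nrm_pairE]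

theorem SB2.summable [IsTotallyReal F] {ψ : (Fin 3 → F) × (Fin 3 → F) → ℂ} {N : ℕ} (hN : 0 < N)
    (h : SB2 N ψ) (k : ℕ) (c : ℝ) (hc : 0 < c) :
    Summable fun p => ‖ψ p‖ *
      ((1 + (nrm p.1 + nrm p.2)) ^ k * Real.exp (-c * (nrm p.1 + nrm p.2))) := by
  obtain ⟨M, _, hM⟩ := h.exists_bound hN
  exact summable_of_supp2 hN hM (fun p hp => h.1 p hp) k c hc

end

end CMT
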