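import Pool.Agent.Lib.CMT.C.Ker

/-!
PROJECT CMT, part C (analysis), file ContE: the integral of the kernel against a continuous
function is continuous in the majorant; `S_ContE`.
-/

namespace CMT

open Finset NumberField MeasureTheory
open scoped BigOperators ComplexConjugate

noncomputable section

variable {F : Type} [Field F] [NumberField F]

theorem kc_exp_sub {m u v : ℝ} (hu : m ≤ u) (hv : m ≤ v) :
    |Real.exp (-u) - Real.exp (-v)| ≤ |u - v| * Real.exp (-m) := by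
  have key : ∀ u v : ℝ, m ≤ u → u ≤ v →
      |Real.exp (-u) - Real.exp (-v)| ≤ |u - v| * Real.exp (-m) := by
    intro u v hu huv
    have h1 : Real.exp (-v) ≤ Real.exp (-u) := Real.exp_le_exp.2 (by linarith)
    rw [abs_of_nonneg (by linarith), abs_of_nonpos (by linarith)]
    have h2 : Real.exp (-v) = Real.exp (-u) * Real.exp (u - v) := by
      rw [← Real.exp_add]; congr 1; ring
    have h3 : (u - v) + 1 ≤ Real.exp (u - v) := Real.add_one_le_exp _
    have h4 : Real.exp (-u) ≤ Real.exp (-m) := Real.exp_le_exp.2 (by linarith)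
    have h5 : 0 < Real.exp (-u) := Real.exp_pos _
    calc Real.exp (-u) - Real.exp (-v) = Real.exp (-u) * (1 - Real.exp (u - v)) := by
          rw [h2]; ring
      _ ≤ Real.exp (-u) * (v - u) := mul_le_mul_of_nonneg_left (by linarith) h5.le
      _ ≤ Real.exp (-m) * (v - u) := mul_le_mul_of_nonneg_right h4 (by linarith)
      _ = -(u - v) * Real.exp (-m) := by ring
  rcases le_total u v with h | h
  · exact key u v hu h
  · rw [abs_sub_comm, abs_sub_comm u v]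
    exact key v u hv h

/-- The exponents at two majorants differ by at most a constant times their distance. -/
theorem kc_e2_sub (D : Dat F) : ∃ K : ℝ, 0 < K ∧
    ∀ (E E' : (F →+* ℝ) → Matrix (Fin 2) (Fin 2) ℝ) (d : ℝ), 0 ≤ d →
      (∀ t, t ≠ D.t0 → ∀ i j, |E t i j - E' t i j| ≤ d) → ∀ x y : Fin 3 → F,
        |e2 D E x y - e2 D E' x y| ≤ d * K * (nrm x + nrm y) := by
  have hK0 : 0 ≤ ∑ t ∈ univ.erase D.t0, kap D t * (2 * max 1 |t D.bet|) :=
    sum_nonneg fun t _ => by have := kc_kap_pos D t; positivity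
  refine ⟨∑ t ∈ univ.erase D.t0, kap D t * (2 * max 1 |t D.bet|) + 1, by linarith, ?_⟩
  intro E E' d hd0 hd x y
  have nx := nrm_nonneg x
  have ny := nrm_nonneg y
  have hsub : e2 D E x y - e2 D E' x y
      = ∑ t ∈ univ.erase D.t0, kap D t * kc_q (E t - E' t) (t D.bet) (rx t x) (rx t y) := by
    rw [kc_e2_eq, kc_e2_eq, ← sum_sub_distrib]
    refine sum_congr rfl fun t _ => ?_
    unfold kc_q
    simp only [Matrix.sub_apply]
    ring
  rw [hsub]
  have hterm : ∀ t ∈ univ.erase D.t0,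
      |kap D t * kc_q (E t - E' t) (t D.bet) (rx t x) (rx t y)|
        ≤ d * (kap D t * (2 * max 1 |t D.bet|)) * (nrm x + nrm y) := by
    intro t ht
    have h1 := kc_q_le (E := E t - E' t) (d := d)
      (fun i j => by rw [Matrix.sub_apply]; exact hd t (mem_erase.1 ht).1 i j)
      (t D.bet) (rx t x) (rx t y)
    have hx : ∑ i, (rx t x i) ^ 2 ≤ nrm x :=
      sum_le_sum fun i _ => single_le_sum (f := fun t : F →+* ℝ => (t (x i)) ^ 2)
        (fun _ _ => sq_nonneg _) (mem_univ t)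
    have hy : ∑ i, (rx t y i) ^ 2 ≤ nrm y :=
      sum_le_sum fun i _ => single_le_sum (f := fun t : F →+* ℝ => (t (y i)) ^ 2)
        (fun _ _ => sq_nonneg _) (mem_univ t)
    rw [abs_mul, abs_of_pos (kc_kap_pos D t)]
    have h2 : d * (2 * max 1 |t D.bet|) * (∑ i, (rx t x i) ^ 2 + ∑ i, (rx t y i) ^ 2)
        ≤ d * (2 * max 1 |t D.bet|) * (nrm x + nrm y) := by
      apply mul_le_mul_of_nonneg_left (add_le_add hx hy)
      positivity
    have h3 := mul_le_mul_of_nonneg_left (h1.trans h2) (kc_kap_pos D t).le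
    calc kap D t * |kc_q (E t - E' t) (t D.bet) (rx t x) (rx t y)|
        ≤ kap D t * (d * (2 * max 1 |t D.bet|) * (nrm x + nrm y)) := h3
      _ = _ := by ring
  calc |∑ t ∈ univ.erase D.t0, kap D t * kc_q (E t - E' t) (t D.bet) (rx t x) (rx t y)|
      ≤ ∑ t ∈ univ.erase D.t0, |kap D t * kc_q (E t - E' t) (t D.bet) (rx t x) (rx t y)| :=
        abs_sum_le_sum_abs _ _
    _ ≤ ∑ t ∈ univ.erase D.t0, d * (kap D t * (2 * max 1 |t D.bet|)) * (nrm x + nrm y) :=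
        sum_le_sum hterm
    _ = d * (∑ t ∈ univ.erase D.t0, kap D t * (2 * max 1 |t D.bet|)) * (nrm x + nrm y) := by
        rw [← sum_mul, ← mul_sum]
    _ ≤ d * (∑ t ∈ univ.erase D.t0, kap D t * (2 * max 1 |t D.bet|) + 1) * (nrm x + nrm y) := by
        gcongr
        linarith

/-- The terms at two majorants. -/
theorem kc_term_sub (D : Dat F) {a1 a2 : F} (h1 : a1 ≠ 0) (h2 : a2 ≠ 0) {ρ : ℝ} (hρ0 : 0 ≤ ρ)
    (hρ1 : ρ < 1) {l : ℝ} (hl : 0 < l) :
    ∃ C c : ℝ, 0 < C ∧ 0 < c ∧ ∀ (E E' : (F →+* ℝ) → Matrix (Fin 2) (Fin 2) ℝ) (d : ℝ), 0 ≤ d →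
      (∀ t, t ≠ D.t0 → ∀ v w : ℝ, l * (v ^ 2 + w ^ 2)
        ≤ E t 0 0 * v ^ 2 + (E t 0 1 + E t 1 0) * (v * w) + E t 1 1 * w ^ 2) →
      (∀ t, t ≠ D.t0 → ∀ v w : ℝ, l * (v ^ 2 + w ^ 2)
        ≤ E' t 0 0 * v ^ 2 + (E' t 0 1 + E' t 1 0) * (v * w) + E' t 1 1 * w ^ 2) →
      (∀ t, t ≠ D.t0 → ∀ i j, |E t i j - E' t i j| ≤ d) →
      ∀ z ∈ sball (D.t0 D.bet) ρ, ∀ (ψ : (Fin 3 → F) × (Fin 3 → F) → ℂ)
        (p : (Fin 3 → F) × (Fin 3 → F)),
        ‖kc_term D a1 a2 E ψ p z - kc_term D a1 a2 E' ψ p z‖ ≤ d * C * (‖ψ p‖ *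
          ((1 + (nrm p.1 + nrm p.2)) ^ 3 * Real.exp (-c * (nrm p.1 + nrm p.2)))) := by
  obtain ⟨C, hC, HC⟩ := kc_wedge D hρ0 hρ1
  obtain ⟨c, hc, Hc⟩ := kc_exp_ge D h1 h2 hρ0 hρ1 hl
  obtain ⟨K, hK, HK⟩ := kc_e2_sub D
  refine ⟨K * C, c, by positivity, hc, fun E E' d hd0 hE hE' hd z hz ψ p => ?_⟩
  have g1 := HC z hz p.1 p.2
  have nx := nrm_nonneg p.1
  have ny := nrm_nonneg p.2
  set n := nrm p.1 + nrm p.2 with hn
  have hn0 : 0 ≤ n := add_nonneg nx ny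
  have g2 : ‖tm2 D a1 a2 E p.1 p.2 z - tm2 D a1 a2 E' p.1 p.2 z‖
      ≤ d * K * n * Real.exp (-c * n) := by
    set r := (e0 D a1 p.1 z).re + (e0 D a2 p.2 z).re with hr
    have e1 : tm2 D a1 a2 E p.1 p.2 z - tm2 D a1 a2 E' p.1 p.2 z
        = Complex.exp (-(e0 D a1 p.1 z + e0 D a2 p.2 z)) *
          ((Real.exp (-(e2 D E p.1 p.2)) - Real.exp (-(e2 D E' p.1 p.2)) : ℝ) : ℂ) := by
      unfold tm2
      rw [Complex.ofReal_sub, Complex.ofReal_exp, Complex.ofReal_exp, mul_sub, ← Complex.exp_add,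
        ← Complex.exp_add, Complex.ofReal_neg, Complex.ofReal_neg]
      congr 2 <;> ring
    have e3 : ‖Complex.exp (-(e0 D a1 p.1 z + e0 D a2 p.2 z))‖ = Real.exp (-r) := by
      rw [Complex.norm_exp, Complex.neg_re, Complex.add_re]
    have f1 := Hc E hE z hz p.1 p.2
    have f2 := Hc E' hE' z hz p.1 p.2
    have f3 := kc_exp_sub (m := c * n - r) (u := e2 D E p.1 p.2) (v := e2 D E' p.1 p.2)
      (by rw [hr]; linarith) (by rw [hr]; linarith)
    have f4 := HK E E' d hd0 hd p.1 p.2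
    rw [e1, norm_mul, e3, Complex.norm_real, Real.norm_eq_abs]
    calc Real.exp (-r) * |Real.exp (-(e2 D E p.1 p.2)) - Real.exp (-(e2 D E' p.1 p.2))|
        ≤ Real.exp (-r) * (|e2 D E p.1 p.2 - e2 D E' p.1 p.2| * Real.exp (-(c * n - r))) :=
          mul_le_mul_of_nonneg_left f3 (Real.exp_pos _).le
      _ ≤ Real.exp (-r) * (d * K * n * Real.exp (-(c * n - r))) := by
          gcongr
      _ = d * K * n * (Real.exp (-r) * Real.exp (-(c * n - r))) := by ring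
      _ = d * K * n * Real.exp (-c * n) := by
          rw [← Real.exp_add]
          congr 2
          ring
  have e5 : kc_term D a1 a2 E ψ p z - kc_term D a1 a2 E' ψ p z
      = ψ p * (tm2 D a1 a2 E p.1 p.2 z - tm2 D a1 a2 E' p.1 p.2 z) *
        wedge (du (D.t0 D.bet) (rx D.t0 p.1) z) (du (D.t0 D.bet) (rx D.t0 p.2) z) := by
    unfold kc_term
    ring
  rw [e5, norm_mul, norm_mul]
  calc ‖ψ p‖ * ‖tm2 D a1 a2 E p.1 p.2 z - tm2 D a1 a2 E' p.1 p.2 z‖ *
        ‖wedge (du (D.t0 D.bet) (rx D.t0 p.1) z) (du (D.t0 D.bet) (rx D.t0 p.2) z)‖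
      ≤ ‖ψ p‖ * (d * K * n * Real.exp (-c * n)) * (C * (1 + n) ^ 2) := by
        gcongr
    _ = d * (K * C) * (‖ψ p‖ * ((n * (1 + n) ^ 2) * Real.exp (-c * n))) := by ring
    _ ≤ d * (K * C) * (‖ψ p‖ * ((1 + n) ^ 3 * Real.exp (-c * n))) := by
        have h3 : n * (1 + n) ^ 2 ≤ (1 + n) ^ 3 := by nlinarith [sq_nonneg (1 + n)]
        gcongr

theorem kc_E12_ge (D : Dat F) {a1 a2 : F} (h1 : a1 ≠ 0) (h2 : a2 ≠ 0) :
    ∃ m : ℝ, 0 < m ∧ ∀ (E : (F →+* ℝ) → Matrix (Fin 2) (Fin 2) ℝ) (d : ℝ), d ≤ m →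
      (∀ t, t ≠ D.t0 → ∀ i j, |E t i j - E12 a1 a2 t i j| ≤ d) →
      ∀ t, t ≠ D.t0 → ∀ v w : ℝ, m * (v ^ 2 + w ^ 2)
        ≤ E t 0 0 * v ^ 2 + (E t 0 1 + E t 1 0) * (v * w) + E t 1 1 * w ^ 2 := by
  have : Nonempty (F →+* ℝ) := ⟨D.t0⟩
  obtain ⟨m, hm, hle⟩ := kc_min (ι := F →+* ℝ) (fun t => min |t a1| |t a2| / 3) (by
    intro t
    have e1 := abs_pos.2 ((map_ne_zero t).2 h1)
    have e2 := abs_pos.2 ((map_ne_zero t).2 h2)
    positivity)
  refine ⟨m, hm, fun E d hdm hd t ht v w => ?_⟩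
  have f1 : 3 * m ≤ |t a1| := by
    have := hle t
    have h3 : min |t a1| |t a2| ≤ |t a1| := min_le_left _ _
    linarith
  have f2 : 3 * m ≤ |t a2| := by
    have := hle t
    have h3 : min |t a1| |t a2| ≤ |t a2| := min_le_right _ _
    linarith
  have g00 := hd t ht 0 0
  have g01 := hd t ht 0 1
  have g10 := hd t ht 1 0
  have g11 := hd t ht 1 1
  have k00 : E12 a1 a2 t 0 0 = |t a1| := by simp [E12]
  have k01 : E12 a1 a2 t 0 1 = 0 := by simp [E12]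
  have k10 : E12 a1 a2 t 1 0 = 0 := by simp [E12]
  have k11 : E12 a1 a2 t 1 1 = |t a2| := by simp [E12]
  rw [k00] at g00
  rw [k01, sub_zero] at g01
  rw [k10, sub_zero] at g10
  rw [k11] at g11
  rw [abs_le] at g00 g01 g10 g11
  have c0 : 2 * m ≤ E t 0 0 := by linarith [g00.1]
  have c1 : 2 * m ≤ E t 1 1 := by linarith [g11.1]
  have c2 : -(2 * m) ≤ E t 0 1 + E t 1 0 := by linarith [g01.1, g10.1]
  have c3 : E t 0 1 + E t 1 0 ≤ 2 * m := by linarith [g01.2, g10.2]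
  have h4 : -(m * (v ^ 2 + w ^ 2)) ≤ (E t 0 1 + E t 1 0) * (v * w) := by
    have a1 := mul_nonneg (by linarith : 0 ≤ 2 * m + (E t 0 1 + E t 1 0)) (sq_nonneg (v + w))
    have a2 := mul_nonneg (by linarith : 0 ≤ 2 * m - (E t 0 1 + E t 1 0)) (sq_nonneg (v - w))
    nlinarith
  have h5 := mul_le_mul_of_nonneg_right c0 (sq_nonneg v)
  have h6 := mul_le_mul_of_nonneg_right c1 (sq_nonneg w)
  nlinarith

theorem kc_E12_self (D : Dat F) {a1 a2 : F} :
    ∀ t, t ≠ D.t0 → ∀ i j, |E12 a1 a2 t i j - E12 a1 a2 t i j| ≤ (0 : ℝ) := by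
  intro t _ i j
  simp

theorem kc_compact_sball {b : ℝ} (hb : 0 < b) {K : Set (ℂ × ℂ)} (hK : IsCompact K)
    (hKb : K ⊆ ball b) : ∃ ρ : ℝ, 0 ≤ ρ ∧ ρ < 1 ∧ K ⊆ sball b ρ := by
  rcases K.eq_empty_or_nonempty with h | h
  · exact ⟨0, le_refl _, one_pos, by rw [h]; exact Set.empty_subset _⟩
  · have hc : ContinuousOn (fun z : ℂ × ℂ => ‖z.1‖ ^ 2 + ‖z.2‖ ^ 2) K := by fun_prop
    obtain ⟨z0, hz0, hmax⟩ := hK.exists_isMaxOn h hc
    obtain ⟨ρ, hρ0, hρ1, hzρ⟩ := kc_exists_sball hb (hKb hz0)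
    refine ⟨ρ, hρ0, hρ1, fun z hz => ?_⟩
    have h1 : ‖z.1‖ ^ 2 + ‖z.2‖ ^ 2 ≤ ‖z0.1‖ ^ 2 + ‖z0.2‖ ^ 2 := hmax hz
    have h2 : ‖z0.1‖ ^ 2 + ‖z0.2‖ ^ 2 < ρ ^ 2 * b := hzρ
    exact lt_of_le_of_lt h1 h2

theorem kc_integrable (D : Dat F) {χ : ℂ × ℂ → ℝ} (hχ : Continuous χ) (hc : HasCompactSupport χ)
    (hs : tsupport χ ⊆ Ball D) {g : ℂ × ℂ → ℂ} (hg : ContinuousOn g (Ball D)) :
    Integrable (fun z => ((χ z : ℝ) : ℂ) * g z) := by
  have hopen : IsOpen (Ball D) := by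
    unfold Ball
    exact isOpen_lt (by fun_prop) continuous_const
  have hts : tsupport (fun z => ((χ z : ℝ) : ℂ) * g z) ⊆ tsupport χ := by
    apply closure_mono
    intro z hz
    rw [Function.mem_support] at hz ⊢
    intro h0
    exact hz (by rw [h0]; simp)
  refine Continuous.integrable_of_hasCompactSupport ?_ ?_
  · apply continuous_of_tsupport
    intro z hz
    have hzB : z ∈ Ball D := hs (hts hz)
    exact (Complex.continuous_ofReal.comp hχ).continuousAt.mul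
      (hg.continuousAt (hopen.mem_nhds hzB))
  · exact HasCompactSupport.of_support_subset_isCompact hc
      ((subset_tsupport _).trans hts)

/-- Continuity of the integral in the majorant. -/
theorem contE : S_ContE := by
  intro F _ _ _ D a1 a2 h1 h2 ψ hψ χ hχ hχc hχs f hf η hη
  obtain ⟨N, hN, hψN⟩ := hψ
  obtain ⟨ρ, hρ0, hρ1, hK⟩ := kc_compact_sball D.bet_pos hχc.isCompact hχs
  obtain ⟨m, hm, Hm⟩ := kc_E12_ge D h1 h2
  obtain ⟨C, c, hC, hc, H⟩ := kc_term_sub D h1 h2 hρ0 hρ1 hm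
  obtain ⟨C', c', hC', hc', H'⟩ := kc_term_le D h1 h2 hρ0 hρ1 hm
  have hsum := hψN.summable hN 3 c hc
  set S : ℝ := ∑' p, ‖ψ p‖ * ((1 + (nrm p.1 + nrm p.2)) ^ 3 *
    Real.exp (-c * (nrm p.1 + nrm p.2))) with hS
  have hS0 : 0 ≤ S := tsum_nonneg fun p => by
    have n1 := nrm_nonneg p.1
    have n2 := nrm_nonneg p.2
    positivity
  have hopen : IsOpen (Ball D) := by
    unfold Ball
    exact isOpen_lt (by fun_prop) continuous_const
  have hfc : ContinuousOn (fun z => ((χ z : ℝ) : ℂ) * conj (f z)) (tsupport χ) :=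
    ((Complex.continuous_ofReal.comp hχ).continuousOn).mul
      (Complex.continuous_conj.comp_continuousOn (hf.mono hχs))
  obtain ⟨M, hM⟩ := hχc.isCompact.exists_bound_of_continuousOn hfc
  set M' : ℝ := max M 0 with hM'
  have hM'0 : 0 ≤ M' := le_max_right _ _
  set V : ℝ := volume.real (tsupport χ) with hV
  have hV0 : 0 ≤ V := measureReal_nonneg
  set Q : ℝ := M' * (C * S) * V with hQ
  have hQ0 : 0 ≤ Q := by positivity
  refine ⟨min m (η / (Q + 1)), by positivity, fun E hE hEd => ?_⟩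
  set d : ℝ := min m (η / (Q + 1)) with hd
  have hd0 : 0 < d := by positivity
  have hdm : d ≤ m := min_le_left _ _
  have hEd' : ∀ t, t ≠ D.t0 → ∀ i j, |E t i j - E12 a1 a2 t i j| ≤ d :=
    fun t ht i j => (hEd t ht i j).le
  have hEl := Hm E d hdm hEd'
  have hEl' := Hm (E12 a1 a2) 0 hm.le (kc_E12_self D)
  have hE12 : ∀ t, t ≠ D.t0 → (E12 a1 a2 t).PosDef := by
    intro t _
    unfold E12
    rw [Matrix.posDef_diagonal_iff]
    intro i
    fin_cases i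
    · exact abs_pos.2 ((map_ne_zero t).2 h1)
    · exact abs_pos.2 ((map_ne_zero t).2 h2)
  have hi1 : Integrable (fun z => ((χ z : ℝ) : ℂ) * (ker D a1 a2 E ψ z * conj (f z))) :=
    kc_integrable D hχ hχc hχs ((contKer F D a1 a2 h1 h2 E hE ψ ⟨N, hN, hψN⟩).mul
      (Complex.continuous_conj.comp_continuousOn hf))
  have hi2 : Integrable
      (fun z => ((χ z : ℝ) : ℂ) * (ker D a1 a2 (E12 a1 a2) ψ z * conj (f z))) :=
    kc_integrable D hχ hχc hχs ((contKer F D a1 a2 h1 h2 (E12 a1 a2) hE12 ψ ⟨N, hN, hψN⟩).mul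
      (Complex.continuous_conj.comp_continuousOn hf))
  have hsub := integral_sub hi1 hi2
  have hpt : ∀ z ∈ tsupport χ,
      ‖((χ z : ℝ) : ℂ) * (ker D a1 a2 E ψ z * conj (f z))
        - ((χ z : ℝ) : ℂ) * (ker D a1 a2 (E12 a1 a2) ψ z * conj (f z))‖
      ≤ M' * (d * C * S) := by
    intro z hz
    have hzρ := hK hz
    have hs1 : Summable fun p => kc_term D a1 a2 E ψ p z :=
      Summable.of_norm (((hψN.summable hN 2 c' hc').mul_left C').of_nonneg_of_le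
        (fun _ => norm_nonneg _) (fun p => H' E hEl z hzρ ψ p))
    have hs2 : Summable fun p => kc_term D a1 a2 (E12 a1 a2) ψ p z :=
      Summable.of_norm (((hψN.summable hN 2 c' hc').mul_left C').of_nonneg_of_le
        (fun _ => norm_nonneg _) (fun p => H' (E12 a1 a2) hEl' z hzρ ψ p))
    have hk : ‖ker D a1 a2 E ψ z - ker D a1 a2 (E12 a1 a2) ψ z‖ ≤ d * C * S := by
      rw [kc_ker_eq, kc_ker_eq, ← hs1.tsum_sub hs2]
      exact tsum_of_norm_bounded (hsum.hasSum.mul_left (d * C))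
        (fun p => H E (E12 a1 a2) d hd0.le hEl hEl' hEd' z hzρ ψ p)
    have e1 : ((χ z : ℝ) : ℂ) * (ker D a1 a2 E ψ z * conj (f z))
        - ((χ z : ℝ) : ℂ) * (ker D a1 a2 (E12 a1 a2) ψ z * conj (f z))
        = (((χ z : ℝ) : ℂ) * conj (f z)) *
          (ker D a1 a2 E ψ z - ker D a1 a2 (E12 a1 a2) ψ z) := by ring
    rw [e1, norm_mul]
    exact mul_le_mul ((hM z hz).trans (le_max_left _ _)) hk (norm_nonneg _) hM'0
  have hzero : ∀ z, z ∉ tsupport χ →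
      ((χ z : ℝ) : ℂ) * (ker D a1 a2 E ψ z * conj (f z))
        - ((χ z : ℝ) : ℂ) * (ker D a1 a2 (E12 a1 a2) ψ z * conj (f z)) = 0 := by
    intro z hz
    have : χ z = 0 := image_eq_zero_of_notMem_tsupport hz
    rw [this]
    simp
  have hfin : volume (tsupport χ) < ⊤ := hχc.isCompact.measure_lt_top
  have hnorm := norm_setIntegral_le_of_norm_le_const (f := fun z =>
      ((χ z : ℝ) : ℂ) * (ker D a1 a2 E ψ z * conj (f z))
        - ((χ z : ℝ) : ℂ) * (ker D a1 a2 (E12 a1 a2) ψ z * conj (f z))) hfin hpt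
  rw [setIntegral_eq_integral_of_forall_compl_eq_zero hzero] at hnorm
  rw [hsub] at hnorm
  refine lt_of_le_of_lt hnorm ?_
  have hdη : d ≤ η / (Q + 1) := min_le_right _ _
  calc M' * (d * C * S) * V = Q * d := by rw [hQ]; ring
    _ ≤ Q * (η / (Q + 1)) := mul_le_mul_of_nonneg_left hdη hQ0
    _ < η := by
        rw [mul_div_assoc', div_lt_iff₀ (by positivity)]
        nlinarith

end

end CMT
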