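import Pool.Agent.Lib.CMT.Iface
import Pool.Agent.Lib.CMT.C.Bd
import Pool.Agent.Lib.CMT.C.Pos

/-!
PROJECT CMT, part C (analysis), file Ker: bounds for the terms of the rank two kernel on smaller
balls, uniform in the majorant; `S_SumKer`, `S_ContKer`.
-/

namespace CMT

open Finset NumberField MeasureTheory
open scoped BigOperators ComplexConjugate

noncomputable section

variable {F : Type} [Field F] [NumberField F]

/-! ## elementary -/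

theorem kc_kap_pos (D : Dat F) (t : F →+* ℝ) : 0 < kap D t :=
  div_pos Real.pi_pos (Real.sqrt_pos.2 (D.del_pos t))

/-- A positive definite `2 × 2` matrix, in coordinates. -/
theorem kc_posDef {E : Matrix (Fin 2) (Fin 2) ℝ} (hE : E.PosDef) :
    ∃ l : ℝ, 0 < l ∧ ∀ v w : ℝ,
      l * (v ^ 2 + w ^ 2) ≤ E 0 0 * v ^ 2 + (E 0 1 + E 1 0) * (v * w) + E 1 1 * w ^ 2 := by
  have hpos : ∀ v w : ℝ, (v ≠ 0 ∨ w ≠ 0) →
      0 < E 0 0 * v ^ 2 + (E 0 1 + E 1 0) * (v * w) + E 1 1 * w ^ 2 := by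
    intro v w hvw
    have hne : (![v, w] : Fin 2 → ℝ) ≠ 0 := by
      intro h
      rcases hvw with h1 | h1
      · exact h1 (congrFun h 0)
      · exact h1 (congrFun h 1)
    have h2 := hE.dotProduct_mulVec_pos hne
    simp only [Matrix.dotProduct_mulVec, star_trivial] at h2
    simp only [dotProduct, Matrix.vecMul, Fin.sum_univ_two, Matrix.cons_val_zero,
      Matrix.cons_val_one] at h2
    nlinarith [h2]
  set s : ℝ := (E 0 1 + E 1 0) / 2 with hs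
  have h0 : 0 < E 0 0 := by
    have := hpos 1 0 (Or.inl one_ne_zero)
    simpa using this
  have h1 : 0 < E 1 1 := by
    have := hpos 0 1 (Or.inr one_ne_zero)
    simpa using this
  have hdet : 0 < E 0 0 * E 1 1 - s ^ 2 := by
    have h3 := hpos (-s) (E 0 0) (Or.inr h0.ne')
    have h4 : E 0 0 * (-s) ^ 2 + (E 0 1 + E 1 0) * (-s * E 0 0) + E 1 1 * E 0 0 ^ 2
        = E 0 0 * (E 0 0 * E 1 1 - s ^ 2) := by
      have : E 0 1 + E 1 0 = 2 * s := by rw [hs]; ring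
      rw [this]; ring
    rw [h4] at h3
    exact (mul_pos_iff_of_pos_left h0).1 h3
  refine ⟨(E 0 0 * E 1 1 - s ^ 2) / (E 0 0 + E 1 1), by positivity, fun v w => ?_⟩
  set l : ℝ := (E 0 0 * E 1 1 - s ^ 2) / (E 0 0 + E 1 1) with hl
  have hlm : l * (E 0 0 + E 1 1) = E 0 0 * E 1 1 - s ^ 2 := by
    rw [hl]; field_simp
  have hA : 0 < E 0 0 - l := by
    have : 0 < (E 0 0 - l) * (E 0 0 + E 1 1) := by
      rw [sub_mul, hlm]; nlinarith [sq_nonneg s, mul_pos h0 h0]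
    exact (mul_pos_iff_of_pos_right (by positivity)).1 this
  have hl0 : 0 < l := by positivity
  have h5 : 0 ≤ (E 0 0 - l) * ((E 0 0 - l) * v ^ 2 + 2 * s * (v * w) + (E 1 1 - l) * w ^ 2) := by
    have h6 : (E 0 0 - l) * ((E 0 0 - l) * v ^ 2 + 2 * s * (v * w) + (E 1 1 - l) * w ^ 2)
        = ((E 0 0 - l) * v + s * w) ^ 2 + l ^ 2 * w ^ 2 := by
      have : (E 0 0 - l) * (E 1 1 - l) = s ^ 2 + l ^ 2 := by nlinarith
      linear_combination w ^ 2 * this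
    rw [h6]; positivity
  have h7 := nonneg_of_mul_nonneg_right h5 hA
  have h8 : E 0 1 + E 1 0 = 2 * s := by rw [hs]; ring
  rw [h8]
  nlinarith

/-- A finite family of positive numbers has a positive lower bound. -/
theorem kc_min {ι : Type*} [Finite ι] [Nonempty ι] (f : ι → ℝ) (hf : ∀ i, 0 < f i) :
    ∃ c : ℝ, 0 < c ∧ ∀ i, c ≤ f i := by
  obtain ⟨i, hi⟩ := Finite.exists_min f
  exact ⟨f i, hf i, hi⟩

theorem kc_sum_le_nrm (D : Dat F) (x : Fin 3 → F) : ∑ i, (D.t0 (x i)) ^ 2 ≤ nrm x :=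
  sum_le_sum fun i _ => single_le_sum (f := fun t : F →+* ℝ => (t (x i)) ^ 2)
    (fun _ _ => sq_nonneg _) (mem_univ D.t0)

theorem kc_nrm_split (D : Dat F) (x : Fin 3 → F) :
    nrm x = ∑ t ∈ univ.erase D.t0, ∑ i, (t (x i)) ^ 2 + ∑ i, (D.t0 (x i)) ^ 2 := by
  unfold nrm
  rw [sum_comm, sum_erase_add _ _ (mem_univ D.t0)]

/-! ## the place `t0` -/

theorem kc_e0 (D : Dat F) {a : F} (ha : a ≠ 0) {ρ : ℝ} (hρ0 : 0 ≤ ρ) (hρ1 : ρ < 1) :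
    ∃ c : ℝ, 0 < c ∧ ∀ z ∈ sball (D.t0 D.bet) ρ, ∀ x : Fin 3 → F,
      c * ∑ i, (D.t0 (x i)) ^ 2 ≤ (e0 D a x z).re := by
  have hb := D.bet_pos
  have hk : 0 < kap D D.t0 * |D.t0 a| :=
    mul_pos (kc_kap_pos D _) (abs_pos.2 ((map_ne_zero D.t0).2 ha))
  have h1ρ : 0 < 1 - ρ := by linarith
  refine ⟨(kap D D.t0 * |D.t0 a|) * ((1 - ρ) ^ 3 / 4 * min 1 (D.t0 D.bet)), by positivity,
    fun z hz x => ?_⟩
  have h := re_q_ge hb hρ0 hρ1 hz (rx D.t0 x)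
  unfold e0
  rw [Complex.re_ofReal_mul, mul_assoc]
  apply mul_le_mul_of_nonneg_left _ hk.le
  refine le_trans ?_ h
  rw [mul_assoc]
  apply mul_le_mul_of_nonneg_left _ (by positivity)
  rw [Fin.sum_univ_three]
  have h1 : min 1 (D.t0 D.bet) ≤ 1 := min_le_left _ _
  have h2 : min 1 (D.t0 D.bet) ≤ D.t0 D.bet := min_le_right _ _
  simp only [rx]
  nlinarith [sq_nonneg (D.t0 (x 0)), sq_nonneg (D.t0 (x 1)), sq_nonneg (D.t0 (x 2))]

theorem kc_mm_ge {b ρ : ℝ} {z : ℂ × ℂ} (hz : z ∈ sball b ρ) : (1 - ρ ^ 2) * b ≤ ‖mm b z‖ := by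
  have h : ‖z.1‖ ^ 2 + ‖z.2‖ ^ 2 < ρ ^ 2 * b := hz
  have h1 : (mm b z).re ≤ ‖mm b z‖ := Complex.re_le_norm _
  rw [mm_re] at h1
  rw [normsq_eq, normsq_eq] at h
  nlinarith [sq_nonneg z.1.im, sq_nonneg z.2.im]

theorem kc_norm_le {b : ℝ} {z : ℂ × ℂ} (hz : z ∈ ball b) :
    ‖z.1‖ ≤ 1 + b ∧ ‖z.2‖ ≤ 1 + b := by
  have h : ‖z.1‖ ^ 2 + ‖z.2‖ ^ 2 < b := hz
  constructor
  · nlinarith [sq_nonneg (‖z.1‖ - 1), sq_nonneg ‖z.2‖]
  · nlinarith [sq_nonneg (‖z.2‖ - 1), sq_nonneg ‖z.1‖]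

theorem kc_ll_le {b : ℝ} (hb : 0 < b) {z : ℂ × ℂ} (hz : z ∈ ball b) (x : Fin 3 → ℝ) {S : ℝ}
    (hS : ∀ i, |x i| ≤ S) : ‖ll b x z‖ ≤ (2 + 3 * b) * S := by
  obtain ⟨h1, h2⟩ := kc_norm_le hz
  have hS0 : 0 ≤ S := (abs_nonneg _).trans (hS 0)
  have e1 : ‖(x 0 : ℂ) * z.1‖ ≤ S * (1 + b) := by
    rw [norm_mul, Complex.norm_real, Real.norm_eq_abs]
    exact mul_le_mul (hS 0) h1 (norm_nonneg _) hS0
  have e2 : ‖(x 1 : ℂ) * z.2‖ ≤ S * (1 + b) := by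
    rw [norm_mul, Complex.norm_real, Real.norm_eq_abs]
    exact mul_le_mul (hS 1) h2 (norm_nonneg _) hS0
  have e3 : ‖(b : ℂ) * (x 2 : ℂ)‖ ≤ b * S := by
    rw [norm_mul, Complex.norm_real, Complex.norm_real, Real.norm_eq_abs, Real.norm_eq_abs,
      abs_of_pos hb]
    exact mul_le_mul_of_nonneg_left (hS 2) hb.le
  unfold ll
  calc ‖(x 0 : ℂ) * z.1 + (x 1 : ℂ) * z.2 - (b : ℂ) * (x 2 : ℂ)‖
      ≤ ‖(x 0 : ℂ) * z.1 + (x 1 : ℂ) * z.2‖ + ‖(b : ℂ) * (x 2 : ℂ)‖ := norm_sub_le _ _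
    _ ≤ ‖(x 0 : ℂ) * z.1‖ + ‖(x 1 : ℂ) * z.2‖ + ‖(b : ℂ) * (x 2 : ℂ)‖ := by
        gcongr; exact norm_add_le _ _
    _ ≤ S * (1 + b) + S * (1 + b) + b * S := by gcongr
    _ = (2 + 3 * b) * S := by ring

/-- The gradient of `uu` is bounded on smaller balls by a constant times `1 + |x|²`. -/
theorem kc_du (D : Dat F) {ρ : ℝ} (hρ0 : 0 ≤ ρ) (hρ1 : ρ < 1) :
    ∃ C : ℝ, 0 < C ∧ ∀ z ∈ sball (D.t0 D.bet) ρ, ∀ x : Fin 3 → F,
      ‖(du (D.t0 D.bet) (rx D.t0 x) z).1‖ ≤ C * (1 + nrm x) ∧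
      ‖(du (D.t0 D.bet) (rx D.t0 x) z).2‖ ≤ C * (1 + nrm x) := by
  have hb := D.bet_pos
  set b := D.t0 D.bet with hbdef
  have h1ρ : 0 < 1 - ρ ^ 2 := by nlinarith
  set m0 : ℝ := (1 - ρ ^ 2) * b with hm0
  have hm0p : 0 < m0 := by positivity
  refine ⟨(2 * b + (2 + 3 * b) * (1 + b)) / (m0 * Real.sqrt m0), by positivity,
    fun z hz x => ?_⟩
  have hzb : z ∈ ball b := sball_subset hb hρ0 hρ1.le hz
  have hmm := kc_mm_ge hz
  have hmmle := norm_mm_le hb hzb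
  have hss : Real.sqrt m0 ≤ ‖ss b z‖ := by
    apply Real.sqrt_le_iff.2
    refine ⟨norm_nonneg _, ?_⟩
    rw [← norm_pow, ss_sq hzb]
    exact hmm
  set S : ℝ := 1 + nrm x with hS
  have hS1 : 0 < S := by have := nrm_nonneg x; positivity
  have hx : ∀ i, |rx D.t0 x i| ≤ S := by
    intro i
    have h1 : (D.t0 (x i)) ^ 2 ≤ nrm x := sq_le_nrm x D.t0 i
    have h2 : |rx D.t0 x i| ^ 2 = (D.t0 (x i)) ^ 2 := by rw [sq_abs]; rfl
    nlinarith [sq_nonneg (|rx D.t0 x i| - 1)]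
  obtain ⟨hz1, hz2⟩ := kc_norm_le hzb
  have hll := kc_ll_le hb hzb (rx D.t0 x) hx
  have hden : m0 * Real.sqrt m0 ≤ ‖mm b z * ss b z‖ := by
    rw [norm_mul]
    exact mul_le_mul hmm hss (Real.sqrt_nonneg _) (norm_nonneg _)
  have hden0 : 0 < m0 * Real.sqrt m0 := by positivity
  have key : ∀ (r : ℝ) (w : ℂ), |r| ≤ S → ‖w‖ ≤ 1 + b →
      ‖((r : ℂ) * mm b z + ll b (rx D.t0 x) z * w) / (mm b z * ss b z)‖
        ≤ (2 * b + (2 + 3 * b) * (1 + b)) / (m0 * Real.sqrt m0) * S := by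
    intro r w hr hw
    have hnum : ‖(r : ℂ) * mm b z + ll b (rx D.t0 x) z * w‖
        ≤ (2 * b + (2 + 3 * b) * (1 + b)) * S := by
      calc ‖(r : ℂ) * mm b z + ll b (rx D.t0 x) z * w‖
          ≤ ‖(r : ℂ) * mm b z‖ + ‖ll b (rx D.t0 x) z * w‖ := norm_add_le _ _
        _ ≤ S * (2 * b) + (2 + 3 * b) * S * (1 + b) := by
            rw [norm_mul, norm_mul, Complex.norm_real, Real.norm_eq_abs]
            gcongr
        _ = _ := by ring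
    rw [norm_div, div_mul_eq_mul_div]
    exact div_le_div₀ (by positivity) hnum hden0 hden
  exact ⟨key _ _ (hx 0) hz1, key _ _ (hx 1) hz2⟩

/-! ## the places `t ≠ t0` -/

/-- The quadratic form of a pair of vectors at a place `t ≠ t0`. -/
def kc_q (E : Matrix (Fin 2) (Fin 2) ℝ) (b : ℝ) (x y : Fin 3 → ℝ) : ℝ :=
  E 0 0 * qf b x x + (E 0 1 + E 1 0) * qf b x y + E 1 1 * qf b y y

theorem kc_e2_eq (D : Dat F) (E : (F →+* ℝ) → Matrix (Fin 2) (Fin 2) ℝ) (x y : Fin 3 → F) :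
    e2 D E x y = ∑ t ∈ univ.erase D.t0, kap D t * kc_q (E t) (t D.bet) (rx t x) (rx t y) := rfl

theorem kc_q_ge {E : Matrix (Fin 2) (Fin 2) ℝ} {l : ℝ} (hl : 0 ≤ l)
    (hE : ∀ v w : ℝ,
      l * (v ^ 2 + w ^ 2) ≤ E 0 0 * v ^ 2 + (E 0 1 + E 1 0) * (v * w) + E 1 1 * w ^ 2)
    {b : ℝ} (hb : b < 0) (x y : Fin 3 → ℝ) :
    l * min 1 (-b) * (∑ i, x i ^ 2 + ∑ i, y i ^ 2) ≤ kc_q E b x y := by
  have h0 := hE (x 0) (y 0)
  have h1 := hE (x 1) (y 1)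
  have h2 := hE (x 2) (y 2)
  have m1 : min 1 (-b) ≤ 1 := min_le_left _ _
  have m2 : min 1 (-b) ≤ -b := min_le_right _ _
  have hq : kc_q E b x y
      = (E 0 0 * x 0 ^ 2 + (E 0 1 + E 1 0) * (x 0 * y 0) + E 1 1 * y 0 ^ 2)
        + (E 0 0 * x 1 ^ 2 + (E 0 1 + E 1 0) * (x 1 * y 1) + E 1 1 * y 1 ^ 2)
        + (-b) * (E 0 0 * x 2 ^ 2 + (E 0 1 + E 1 0) * (x 2 * y 2) + E 1 1 * y 2 ^ 2) := by
    unfold kc_q qf
    ring
  rw [hq, Fin.sum_univ_three, Fin.sum_univ_three]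
  have k0 : l * min 1 (-b) * (x 0 ^ 2 + y 0 ^ 2) ≤ l * (x 0 ^ 2 + y 0 ^ 2) := by
    have : l * min 1 (-b) ≤ l * 1 := mul_le_mul_of_nonneg_left m1 hl
    nlinarith [sq_nonneg (x 0), sq_nonneg (y 0)]
  have k1 : l * min 1 (-b) * (x 1 ^ 2 + y 1 ^ 2) ≤ l * (x 1 ^ 2 + y 1 ^ 2) := by
    have : l * min 1 (-b) ≤ l * 1 := mul_le_mul_of_nonneg_left m1 hl
    nlinarith [sq_nonneg (x 1), sq_nonneg (y 1)]
  have k2 : l * min 1 (-b) * (x 2 ^ 2 + y 2 ^ 2) ≤ (-b) * (l * (x 2 ^ 2 + y 2 ^ 2)) := by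
    have h3 : l * min 1 (-b) ≤ l * (-b) := mul_le_mul_of_nonneg_left m2 hl
    have h4 := mul_le_mul_of_nonneg_right h3 (add_nonneg (sq_nonneg (x 2)) (sq_nonneg (y 2)))
    linarith [h4]
  have k2' : (-b) * (l * (x 2 ^ 2 + y 2 ^ 2))
      ≤ (-b) * (E 0 0 * x 2 ^ 2 + (E 0 1 + E 1 0) * (x 2 * y 2) + E 1 1 * y 2 ^ 2) :=
    mul_le_mul_of_nonneg_left h2 (by linarith)
  nlinarith

theorem kc_q_le {E : Matrix (Fin 2) (Fin 2) ℝ} {d : ℝ} (hE : ∀ i j, |E i j| ≤ d)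
    (b : ℝ) (x y : Fin 3 → ℝ) :
    |kc_q E b x y| ≤ d * (2 * max 1 |b|) * (∑ i, x i ^ 2 + ∑ i, y i ^ 2) := by
  have hd : 0 ≤ d := (abs_nonneg _).trans (hE 0 0)
  have m1 : (1 : ℝ) ≤ max 1 |b| := le_max_left _ _
  have m2 : |b| ≤ max 1 |b| := le_max_right _ _
  set M : ℝ := max 1 |b| with hM
  have hM0 : 0 ≤ M := zero_le_one.trans m1
  have hqf : ∀ v w : Fin 3 → ℝ, |qf b v w| ≤ M * ((∑ i, v i ^ 2 + ∑ i, w i ^ 2) / 2) := by
    intro v w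
    have h3 : ∀ i, |v i * w i| ≤ (v i ^ 2 + w i ^ 2) / 2 := by
      intro i
      rw [abs_le]
      constructor <;> nlinarith [sq_nonneg (v i - w i), sq_nonneg (v i + w i)]
    calc |qf b v w| ≤ |v 0 * w 0| + |v 1 * w 1| + |b * (v 2 * w 2)| := by
          unfold qf
          calc |v 0 * w 0 + v 1 * w 1 - b * (v 2 * w 2)|
              ≤ |v 0 * w 0 + v 1 * w 1| + |b * (v 2 * w 2)| := abs_sub _ _
            _ ≤ _ := by gcongr; exact abs_add_le _ _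
      _ ≤ M * ((v 0 ^ 2 + w 0 ^ 2) / 2) + M * ((v 1 ^ 2 + w 1 ^ 2) / 2)
          + M * ((v 2 ^ 2 + w 2 ^ 2) / 2) := by
          have a0 : |v 0 * w 0| ≤ M * ((v 0 ^ 2 + w 0 ^ 2) / 2) :=
            (h3 0).trans (le_mul_of_one_le_left (by positivity) m1)
          have a1 : |v 1 * w 1| ≤ M * ((v 1 ^ 2 + w 1 ^ 2) / 2) :=
            (h3 1).trans (le_mul_of_one_le_left (by positivity) m1)
          have a2 : |b * (v 2 * w 2)| ≤ M * ((v 2 ^ 2 + w 2 ^ 2) / 2) := by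
            rw [abs_mul]
            exact mul_le_mul m2 (h3 2) (abs_nonneg _) hM0
          linarith
      _ = _ := by rw [Fin.sum_univ_three, Fin.sum_univ_three]; ring
  have q1 := hqf x x
  have q2 := hqf x y
  have q3 := hqf y y
  set X := ∑ i, x i ^ 2 with hX
  set Y := ∑ i, y i ^ 2 with hY
  have hX0 : 0 ≤ X := sum_nonneg fun _ _ => sq_nonneg _
  have hY0 : 0 ≤ Y := sum_nonneg fun _ _ => sq_nonneg _
  have e01 : |E 0 1 + E 1 0| ≤ d + d := (abs_add_le _ _).trans (add_le_add (hE 0 1) (hE 1 0))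
  calc |kc_q E b x y|
      ≤ |E 0 0 * qf b x x| + |(E 0 1 + E 1 0) * qf b x y| + |E 1 1 * qf b y y| := by
        unfold kc_q
        calc |E 0 0 * qf b x x + (E 0 1 + E 1 0) * qf b x y + E 1 1 * qf b y y|
            ≤ |E 0 0 * qf b x x + (E 0 1 + E 1 0) * qf b x y| + |E 1 1 * qf b y y| :=
              abs_add_le _ _
          _ ≤ _ := by gcongr; exact abs_add_le _ _
    _ ≤ d * (M * ((X + X) / 2)) + (d + d) * (M * ((X + Y) / 2)) + d * (M * ((Y + Y) / 2)) := by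
        rw [abs_mul, abs_mul, abs_mul]
        have hdd : 0 ≤ d + d := by linarith
        gcongr
        · exact hE 0 0
        · exact hE 1 1
    _ = _ := by ring

/-- Lower bound of the exponent at the places `t ≠ t0`, uniform in the majorant. -/
theorem kc_e2_ge (D : Dat F) {l : ℝ} (hl : 0 < l) :
    ∃ c : ℝ, 0 < c ∧ ∀ E : (F →+* ℝ) → Matrix (Fin 2) (Fin 2) ℝ,
      (∀ t, t ≠ D.t0 → ∀ v w : ℝ, l * (v ^ 2 + w ^ 2)
        ≤ E t 0 0 * v ^ 2 + (E t 0 1 + E t 1 0) * (v * w) + E t 1 1 * w ^ 2) →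
      ∀ x y : Fin 3 → F, c * ∑ t ∈ univ.erase D.t0, (∑ i, (t (x i)) ^ 2 + ∑ i, (t (y i)) ^ 2)
        ≤ e2 D E x y := by
  classical
  have : Nonempty (F →+* ℝ) := ⟨D.t0⟩
  obtain ⟨c, hc, hcle⟩ := kc_min (ι := F →+* ℝ)
    (fun t => if t = D.t0 then 1 else kap D t * (l * min 1 (-(t D.bet)))) (by
      intro t
      by_cases ht : t = D.t0
      · simp [ht]
      · have h1 := kc_kap_pos D t
        have h2 : 0 < -(t D.bet) := by have := D.bet_neg t ht; linarith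
        simp only [ht, if_false]
        positivity)
  refine ⟨c, hc, fun E hE x y => ?_⟩
  rw [kc_e2_eq, mul_sum]
  refine sum_le_sum fun t ht => ?_
  have ht' : t ≠ D.t0 := (mem_erase.1 ht).1
  have h1 := hcle t
  simp only [ht', if_false] at h1
  have h2 := kc_q_ge hl.le (hE t ht') (D.bet_neg t ht') (rx t x) (rx t y)
  have h3 : 0 ≤ ∑ i, (t (x i)) ^ 2 + ∑ i, (t (y i)) ^ 2 :=
    add_nonneg (sum_nonneg fun _ _ => sq_nonneg _) (sum_nonneg fun _ _ => sq_nonneg _)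
  calc c * (∑ i, (t (x i)) ^ 2 + ∑ i, (t (y i)) ^ 2)
      ≤ kap D t * (l * min 1 (-(t D.bet))) * (∑ i, (t (x i)) ^ 2 + ∑ i, (t (y i)) ^ 2) :=
        mul_le_mul_of_nonneg_right h1 h3
    _ = kap D t * (l * min 1 (-(t D.bet)) * (∑ i, (t (x i)) ^ 2 + ∑ i, (t (y i)) ^ 2)) := by ring
    _ ≤ kap D t * kc_q (E t) (t D.bet) (rx t x) (rx t y) :=
        mul_le_mul_of_nonneg_left h2 (kc_kap_pos D t).le

/-- The real part of the whole exponent. -/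
theorem kc_exp_ge (D : Dat F) {a1 a2 : F} (h1 : a1 ≠ 0) (h2 : a2 ≠ 0) {ρ : ℝ} (hρ0 : 0 ≤ ρ)
    (hρ1 : ρ < 1) {l : ℝ} (hl : 0 < l) :
    ∃ c : ℝ, 0 < c ∧ ∀ E : (F →+* ℝ) → Matrix (Fin 2) (Fin 2) ℝ,
      (∀ t, t ≠ D.t0 → ∀ v w : ℝ, l * (v ^ 2 + w ^ 2)
        ≤ E t 0 0 * v ^ 2 + (E t 0 1 + E t 1 0) * (v * w) + E t 1 1 * w ^ 2) →
      ∀ z ∈ sball (D.t0 D.bet) ρ, ∀ x y : Fin 3 → F,
        c * (nrm x + nrm y) ≤ e2 D E x y + (e0 D a1 x z).re + (e0 D a2 y z).re := by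
  obtain ⟨c1, hc1, H1⟩ := kc_e0 D h1 hρ0 hρ1
  obtain ⟨c2, hc2, H2⟩ := kc_e0 D h2 hρ0 hρ1
  obtain ⟨c3, hc3, H3⟩ := kc_e2_ge D hl
  refine ⟨min c3 (min c1 c2), by positivity, fun E hE z hz x y => ?_⟩
  have g1 := H1 z hz x
  have g2 := H2 z hz y
  have g3 := H3 E hE x y
  set c := min c3 (min c1 c2) with hc
  have l1 : c ≤ c1 := (min_le_right _ _).trans (min_le_left _ _)
  have l2 : c ≤ c2 := (min_le_right _ _).trans (min_le_right _ _)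
  have l3 : c ≤ c3 := min_le_left _ _
  have s1 : 0 ≤ ∑ i, (D.t0 (x i)) ^ 2 := sum_nonneg fun _ _ => sq_nonneg _
  have s2 : 0 ≤ ∑ i, (D.t0 (y i)) ^ 2 := sum_nonneg fun _ _ => sq_nonneg _
  have s3 : 0 ≤ ∑ t ∈ univ.erase D.t0, (∑ i, (t (x i)) ^ 2 + ∑ i, (t (y i)) ^ 2) :=
    sum_nonneg fun _ _ => add_nonneg (sum_nonneg fun _ _ => sq_nonneg _)
      (sum_nonneg fun _ _ => sq_nonneg _)
  have m1 := mul_le_mul_of_nonneg_right l1 s1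
  have m2 := mul_le_mul_of_nonneg_right l2 s2
  have m3 := mul_le_mul_of_nonneg_right l3 s3
  have hx := kc_nrm_split D x
  have hy := kc_nrm_split D y
  rw [sum_add_distrib] at m3 g3
  rw [hx, hy]
  linarith

/-! ## the terms of the kernel -/

/-- The term of the kernel. -/
def kc_term (D : Dat F) (a1 a2 : F) (E : (F →+* ℝ) → Matrix (Fin 2) (Fin 2) ℝ)
    (ψ : (Fin 3 → F) × (Fin 3 → F) → ℂ) (p : (Fin 3 → F) × (Fin 3 → F)) (z : ℂ × ℂ) : ℂ :=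
  ψ p * tm2 D a1 a2 E p.1 p.2 z *
    wedge (du (D.t0 D.bet) (rx D.t0 p.1) z) (du (D.t0 D.bet) (rx D.t0 p.2) z)

theorem kc_ker_eq (D : Dat F) (a1 a2 : F) (E : (F →+* ℝ) → Matrix (Fin 2) (Fin 2) ℝ)
    (ψ : (Fin 3 → F) × (Fin 3 → F) → ℂ) (z : ℂ × ℂ) :
    ker D a1 a2 E ψ z = ∑' p, kc_term D a1 a2 E ψ p z := rfl

theorem kc_wedge (D : Dat F) {ρ : ℝ} (hρ0 : 0 ≤ ρ) (hρ1 : ρ < 1) :
    ∃ C : ℝ, 0 < C ∧ ∀ z ∈ sball (D.t0 D.bet) ρ, ∀ x y : Fin 3 → F,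
      ‖wedge (du (D.t0 D.bet) (rx D.t0 x) z) (du (D.t0 D.bet) (rx D.t0 y) z)‖
        ≤ C * (1 + (nrm x + nrm y)) ^ 2 := by
  obtain ⟨C, hC, H⟩ := kc_du D hρ0 hρ1
  refine ⟨2 * C ^ 2, by positivity, fun z hz x y => ?_⟩
  obtain ⟨x1, x2⟩ := H z hz x
  obtain ⟨y1, y2⟩ := H z hz y
  have nx := nrm_nonneg x
  have ny := nrm_nonneg y
  unfold wedge
  calc ‖(du (D.t0 D.bet) (rx D.t0 x) z).1 * (du (D.t0 D.bet) (rx D.t0 y) z).2
        - (du (D.t0 D.bet) (rx D.t0 x) z).2 * (du (D.t0 D.bet) (rx D.t0 y) z).1‖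
      ≤ ‖(du (D.t0 D.bet) (rx D.t0 x) z).1 * (du (D.t0 D.bet) (rx D.t0 y) z).2‖
        + ‖(du (D.t0 D.bet) (rx D.t0 x) z).2 * (du (D.t0 D.bet) (rx D.t0 y) z).1‖ :=
        norm_sub_le _ _
    _ ≤ (C * (1 + nrm x)) * (C * (1 + nrm y)) + (C * (1 + nrm x)) * (C * (1 + nrm y)) := by
        rw [norm_mul, norm_mul]
        gcongr
    _ ≤ 2 * C ^ 2 * (1 + (nrm x + nrm y)) ^ 2 := by
        have h1 : (1 + nrm x) * (1 + nrm y) ≤ (1 + (nrm x + nrm y)) ^ 2 := by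
          nlinarith [mul_nonneg nx ny]
        have h2 := mul_le_mul_of_nonneg_left h1 (by positivity : (0 : ℝ) ≤ 2 * C ^ 2)
        linarith

theorem kc_norm_tm2 (D : Dat F) (a1 a2 : F) (E : (F →+* ℝ) → Matrix (Fin 2) (Fin 2) ℝ)
    (x y : Fin 3 → F) (z : ℂ × ℂ) :
    ‖tm2 D a1 a2 E x y z‖ = Real.exp (-(e2 D E x y + (e0 D a1 x z).re + (e0 D a2 y z).re)) := by
  unfold tm2
  rw [Complex.norm_exp]
  simp only [Complex.neg_re, Complex.add_re, Complex.ofReal_re]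

/-- The bound of the terms, uniform on smaller balls and in the majorant. -/
theorem kc_term_le (D : Dat F) {a1 a2 : F} (h1 : a1 ≠ 0) (h2 : a2 ≠ 0) {ρ : ℝ} (hρ0 : 0 ≤ ρ)
    (hρ1 : ρ < 1) {l : ℝ} (hl : 0 < l) :
    ∃ C c : ℝ, 0 < C ∧ 0 < c ∧ ∀ E : (F →+* ℝ) → Matrix (Fin 2) (Fin 2) ℝ,
      (∀ t, t ≠ D.t0 → ∀ v w : ℝ, l * (v ^ 2 + w ^ 2)
        ≤ E t 0 0 * v ^ 2 + (E t 0 1 + E t 1 0) * (v * w) + E t 1 1 * w ^ 2) →
      ∀ z ∈ sball (D.t0 D.bet) ρ, ∀ (ψ : (Fin 3 → F) × (Fin 3 → F) → ℂ)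
        (p : (Fin 3 → F) × (Fin 3 → F)),
        ‖kc_term D a1 a2 E ψ p z‖ ≤ C * (‖ψ p‖ *
          ((1 + (nrm p.1 + nrm p.2)) ^ 2 * Real.exp (-c * (nrm p.1 + nrm p.2)))) := by
  obtain ⟨C, hC, HC⟩ := kc_wedge D hρ0 hρ1
  obtain ⟨c, hc, Hc⟩ := kc_exp_ge D h1 h2 hρ0 hρ1 hl
  refine ⟨C, c, hC, hc, fun E hE z hz ψ p => ?_⟩
  have g1 := HC z hz p.1 p.2
  have g2 : ‖tm2 D a1 a2 E p.1 p.2 z‖ ≤ Real.exp (-c * (nrm p.1 + nrm p.2)) := by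
    rw [kc_norm_tm2]
    apply Real.exp_le_exp.2
    have := Hc E hE z hz p.1 p.2
    linarith
  unfold kc_term
  rw [norm_mul, norm_mul]
  calc ‖ψ p‖ * ‖tm2 D a1 a2 E p.1 p.2 z‖ *
        ‖wedge (du (D.t0 D.bet) (rx D.t0 p.1) z) (du (D.t0 D.bet) (rx D.t0 p.2) z)‖
      ≤ ‖ψ p‖ * Real.exp (-c * (nrm p.1 + nrm p.2)) * (C * (1 + (nrm p.1 + nrm p.2)) ^ 2) := by
        gcongr
    _ = _ := by ring

/-- A uniform constant for finitely many positive definite matrices. -/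
theorem kc_posDef_all (D : Dat F) {E : (F →+* ℝ) → Matrix (Fin 2) (Fin 2) ℝ}
    (hE : ∀ t, t ≠ D.t0 → (E t).PosDef) :
    ∃ l : ℝ, 0 < l ∧ ∀ t, t ≠ D.t0 → ∀ v w : ℝ, l * (v ^ 2 + w ^ 2)
        ≤ E t 0 0 * v ^ 2 + (E t 0 1 + E t 1 0) * (v * w) + E t 1 1 * w ^ 2 := by
  classical
  have : Nonempty (F →+* ℝ) := ⟨D.t0⟩
  have h : ∀ t : F →+* ℝ, ∃ l : ℝ, 0 < l ∧ (t ≠ D.t0 → ∀ v w : ℝ, l * (v ^ 2 + w ^ 2)
        ≤ E t 0 0 * v ^ 2 + (E t 0 1 + E t 1 0) * (v * w) + E t 1 1 * w ^ 2) := by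
    intro t
    by_cases ht : t = D.t0
    · exact ⟨1, one_pos, fun h => absurd ht h⟩
    · obtain ⟨l, hl, H⟩ := kc_posDef (hE t ht)
      exact ⟨l, hl, fun _ => H⟩
  choose f hf Hf using h
  obtain ⟨l, hl, hle⟩ := kc_min f hf
  refine ⟨l, hl, fun t ht v w => le_trans ?_ (Hf t ht v w)⟩
  exact mul_le_mul_of_nonneg_right (hle t) (by positivity)

theorem kc_exists_sball {b : ℝ} (hb : 0 < b) {z : ℂ × ℂ} (hz : z ∈ ball b) :
    ∃ ρ : ℝ, 0 ≤ ρ ∧ ρ < 1 ∧ z ∈ sball b ρ := by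
  have h : ‖z.1‖ ^ 2 + ‖z.2‖ ^ 2 < b := hz
  set w := ‖z.1‖ ^ 2 + ‖z.2‖ ^ 2 with hw
  have hw0 : 0 ≤ w := by positivity
  have h1 : w / b < 1 := by rw [div_lt_one hb]; exact h
  have h2 : 0 ≤ w / b := by positivity
  refine ⟨Real.sqrt ((w / b + 1) / 2), Real.sqrt_nonneg _, ?_, ?_⟩
  · rw [Real.sqrt_lt' one_pos]
    linarith
  · change w < Real.sqrt ((w / b + 1) / 2) ^ 2 * b
    rw [Real.sq_sqrt (by positivity)]
    have h3 : w = w / b * b := by field_simp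
    have h4 : w / b < (w / b + 1) / 2 := by linarith
    calc w = w / b * b := h3
      _ < (w / b + 1) / 2 * b := mul_lt_mul_of_pos_right h4 hb

theorem kc_sball_open (b ρ : ℝ) : IsOpen (sball b ρ) := by
  unfold sball
  exact isOpen_lt (by fun_prop) continuous_const

/-- Absolute convergence of the kernel. -/
theorem sumKer : S_SumKer := by
  intro F _ _ _ D a1 a2 h1 h2 E hE ψ hψ z hz
  obtain ⟨N, hN, hψN⟩ := hψ
  obtain ⟨ρ, hρ0, hρ1, hzρ⟩ := kc_exists_sball D.bet_pos hz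
  obtain ⟨l, hl, hEl⟩ := kc_posDef_all D hE
  obtain ⟨C, c, hC, hc, H⟩ := kc_term_le D h1 h2 hρ0 hρ1 hl
  exact ((hψN.summable hN 2 c hc).mul_left C).of_nonneg_of_le (fun _ => norm_nonneg _)
    (fun p => H E hEl z hzρ ψ p)

/-! ## continuity -/

theorem kc_cont_mm (b : ℝ) : Continuous (mm b) := by
  unfold mm
  fun_prop

theorem kc_cont_ss (b : ℝ) : ContinuousOn (ss b) (ball b) :=
  (kc_cont_mm b).continuousOn.cpow continuousOn_const (fun _ hz => mm_slit hz)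

theorem kc_cont_ll (b : ℝ) (x : Fin 3 → ℝ) : Continuous (ll b x) := by
  unfold ll
  fun_prop

theorem kc_cont_uu (b : ℝ) (x : Fin 3 → ℝ) : ContinuousOn (uu b x) (ball b) :=
  (kc_cont_ll b x).continuousOn.div (kc_cont_ss b) (fun _ hz => ss_ne hz)

theorem kc_cont_du1 (b : ℝ) (x : Fin 3 → ℝ) : ContinuousOn (fun z => (du b x z).1) (ball b) := by
  refine ContinuousOn.div ?_ ((kc_cont_mm b).continuousOn.mul (kc_cont_ss b))
    (fun z hz => mul_ne_zero (mm_ne hz) (ss_ne hz))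
  exact ((continuous_const.mul (kc_cont_mm b)).add
    ((kc_cont_ll b x).mul continuous_fst)).continuousOn

theorem kc_cont_du2 (b : ℝ) (x : Fin 3 → ℝ) : ContinuousOn (fun z => (du b x z).2) (ball b) := by
  refine ContinuousOn.div ?_ ((kc_cont_mm b).continuousOn.mul (kc_cont_ss b))
    (fun z hz => mul_ne_zero (mm_ne hz) (ss_ne hz))
  exact ((continuous_const.mul (kc_cont_mm b)).add
    ((kc_cont_ll b x).mul continuous_snd)).continuousOn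

theorem kc_cont_e0 (D : Dat F) (a : F) (x : Fin 3 → F) : ContinuousOn (e0 D a x) (Ball D) := by
  unfold e0
  exact continuousOn_const.mul (continuousOn_const.add
    (continuousOn_const.mul ((kc_cont_uu (D.t0 D.bet) (rx D.t0 x)).pow 2)))

theorem kc_cont_term (D : Dat F) (a1 a2 : F) (E : (F →+* ℝ) → Matrix (Fin 2) (Fin 2) ℝ)
    (ψ : (Fin 3 → F) × (Fin 3 → F) → ℂ) (p : (Fin 3 → F) × (Fin 3 → F)) :
    ContinuousOn (kc_term D a1 a2 E ψ p) (Ball D) := by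
  have h1 : ContinuousOn (tm2 D a1 a2 E p.1 p.2) (Ball D) := by
    unfold tm2
    exact ((continuousOn_const.add (kc_cont_e0 D a1 p.1)).add (kc_cont_e0 D a2 p.2)).neg.cexp
  have h2 : ContinuousOn (fun z => wedge (du (D.t0 D.bet) (rx D.t0 p.1) z)
      (du (D.t0 D.bet) (rx D.t0 p.2) z)) (Ball D) := by
    unfold wedge
    exact ((kc_cont_du1 _ _).mul (kc_cont_du2 _ _)).sub ((kc_cont_du2 _ _).mul (kc_cont_du1 _ _))
  exact (continuousOn_const.mul h1).mul h2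

/-- The kernel is continuous on the ball. -/
theorem contKer : S_ContKer := by
  intro F _ _ _ D a1 a2 h1 h2 E hE ψ hψ z hz
  obtain ⟨N, hN, hψN⟩ := hψ
  obtain ⟨ρ, hρ0, hρ1, hzρ⟩ := kc_exists_sball D.bet_pos hz
  obtain ⟨l, hl, hEl⟩ := kc_posDef_all D hE
  obtain ⟨C, c, hC, hc, H⟩ := kc_term_le D h1 h2 hρ0 hρ1 hl
  have hsub : sball (D.t0 D.bet) ρ ⊆ Ball D := sball_subset D.bet_pos hρ0 hρ1.le
  have hcont : ContinuousOn (fun z => ∑' p, kc_term D a1 a2 E ψ p z) (sball (D.t0 D.bet) ρ) :=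
    continuousOn_tsum (fun p => (kc_cont_term D a1 a2 E ψ p).mono hsub)
      ((hψN.summable hN 2 c hc).mul_left C) (fun p w hw => H E hEl w hw ψ p)
  exact (hcont.continuousAt ((kc_sball_open _ _).mem_nhds hzρ)).continuousWithinAt

end

end CMT
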